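import Mathlib

/-!
# Green's identities for test functions on the complex plane
-/

set_option autoImplicit false

open MeasureTheory Complex Set Filter Topology Laplacian InnerProductSpace

namespace Pool.Agent.H30M

theorem integrable_of_ts {f : ℂ → ℝ} (hf : ∀ z ∈ tsupport f, ContinuousAt f z) (hc : HasCompactSupport f) :
    Integrable f := by
  have h : Continuous f := by
    rw [continuous_iff_continuousAt]
    intro z
    by_cases hz : z ∈ tsupport f
    · exact hf z hz
    · have h0 : f =ᶠ[𝓝 z] fun _ => 0 := by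
        have := (isClosed_tsupport f).isOpen_compl.mem_nhds hz
        filter_upwards [this] with w hw
        exact image_eq_zero_of_notMem_tsupport hw
      exact (continuousAt_const (y := (0 : ℝ))).congr h0.symm
  exact h.integrable_of_hasCompactSupport hc

theorem hcs_of_sub {a f : ℂ → ℝ} (hc : HasCompactSupport a) (h : tsupport f ⊆ tsupport a) : HasCompactSupport f :=
  IsCompact.of_isClosed_subset hc (isClosed_tsupport f) h

theorem ts_fderiv (a : ℂ → ℝ) (v : ℂ) : tsupport (fun z => fderiv ℝ a z v) ⊆ tsupport a :=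
  closure_minimal (fun z hz => by
    apply support_fderiv_subset ℝ (f := a)
    intro h
    exact hz (by simp [h])) (isClosed_tsupport a)

/-- **Integration by parts** in the direction `v`; `b` has only to be `C¹` near the support of `a`. -/
theorem ibp {a b : ℂ → ℝ} (ha : ContDiff ℝ 1 a) (hc : HasCompactSupport a)
    (hb : ∀ z ∈ tsupport a, ContDiffAt ℝ 1 b z) (v : ℂ) :
    ∫ z, a z * fderiv ℝ b z v = - ∫ z, fderiv ℝ a z v * b z := by
  have ha1 : Continuous fun z => fderiv ℝ a z v := (ha.continuous_fderiv (by norm_num)).clm_apply continuous_const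
  apply integral_mul_fderiv_eq_neg_fderiv_mul_of_integrable
  · have hs : tsupport (fun z => fderiv ℝ a z v * b z) ⊆ tsupport a :=
      (tsupport_mul_subset_left (f := fun z => fderiv ℝ a z v) (g := b)).trans (ts_fderiv a v)
    exact integrable_of_ts (fun z hz => ha1.continuousAt.mul (hb z (hs hz)).continuousAt) (hcs_of_sub hc hs)
  · have hs : tsupport (fun z => a z * fderiv ℝ b z v) ⊆ tsupport a :=
      tsupport_mul_subset_left (f := a) (g := fun z => fderiv ℝ b z v)
    exact integrable_of_ts (fun z hz => ha.continuous.continuousAt.mul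
      (((hb z (hs hz)).fderiv_right (m := 0) (by norm_num)).continuousAt.clm_apply continuousAt_const))
      (hcs_of_sub hc hs)
  · have hs : tsupport (fun z => a z * b z) ⊆ tsupport a := tsupport_mul_subset_left (f := a) (g := b)
    exact integrable_of_ts (fun z hz => ha.continuous.continuousAt.mul (hb z (hs hz)).continuousAt)
      (hcs_of_sub hc hs)
  · exact fun z _ => ha.contDiffAt.differentiableAt (by norm_num)
  · exact fun z hz => (hb z hz).differentiableAt (by norm_num)

/-- The Laplacian of a `C²` function by partial derivatives. -/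
theorem lap_eq {u : ℂ → ℝ} {z : ℂ} (hu : ContDiffAt ℝ 2 u z) :
    Δ u z = fderiv ℝ (fun w => fderiv ℝ u w 1) z 1 + fderiv ℝ (fun w => fderiv ℝ u w I) z I := by
  have hd : DifferentiableAt ℝ (fderiv ℝ u) z := (hu.fderiv_right (m := 1) (by norm_num)).differentiableAt (by norm_num)
  have key : ∀ v : ℂ, fderiv ℝ (fun w => fderiv ℝ u w v) z v = iteratedFDeriv ℝ 2 u z ![v, v] := by
    intro v
    rw [iteratedFDeriv_two_apply]
    rw [fderiv_clm_apply hd (by fun_prop)]
    simp
  rw [laplacian_eq_iteratedFDeriv_complexPlane, key, key]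

theorem contDiffAt_d {u : ℂ → ℝ} {z : ℂ} (hu : ContDiffAt ℝ 2 u z) (v : ℂ) :
    ContDiffAt ℝ 1 (fun w => fderiv ℝ u w v) z :=
  (hu.fderiv_right (m := 1) (by norm_num)).clm_apply contDiffAt_const

theorem lap_of_not_ts {a : ℂ → ℝ} {z : ℂ} (hz : z ∉ tsupport a) : Δ a z = 0 := by
  have h0 : a =ᶠ[𝓝 z] fun _ => 0 := by
    have := (isClosed_tsupport a).isOpen_compl.mem_nhds hz
    filter_upwards [this] with w hw
    exact image_eq_zero_of_notMem_tsupport hw
  rw [laplacian_congr_nhds h0 |>.eq_of_nhds]
  simp [laplacian_const]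

theorem ts_lap (a : ℂ → ℝ) : tsupport (Δ a) ⊆ tsupport a :=
  closure_minimal (fun z hz => by
    by_contra h
    exact hz (lap_of_not_ts h)) (isClosed_tsupport a)

/-- **Green's first identity** -/
theorem green1 {a u : ℂ → ℝ} (ha : ContDiff ℝ 1 a) (hc : HasCompactSupport a)
    (hu : ∀ z ∈ tsupport a, ContDiffAt ℝ 2 u z) :
    ∫ z, a z * Δ u z = - ∫ z, (fderiv ℝ a z 1 * fderiv ℝ u z 1 + fderiv ℝ a z I * fderiv ℝ u z I) := by
  have h1 := ibp ha hc (fun z hz => contDiffAt_d (hu z hz) 1) 1
  have h2 := ibp ha hc (fun z hz => contDiffAt_d (hu z hz) I) I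
  have e : ∀ z, a z * Δ u z = a z * fderiv ℝ (fun w => fderiv ℝ u w 1) z 1
      + a z * fderiv ℝ (fun w => fderiv ℝ u w I) z I := by
    intro z
    by_cases hz : z ∈ tsupport a
    · rw [lap_eq (hu z hz)]; ring
    · rw [image_eq_zero_of_notMem_tsupport hz]; ring
  have i1 : ∀ v : ℂ, Integrable fun z => a z * fderiv ℝ (fun w => fderiv ℝ u w v) z v := by
    intro v
    have hs : tsupport (fun z => a z * fderiv ℝ (fun w => fderiv ℝ u w v) z v) ⊆ tsupport a :=
      tsupport_mul_subset_left (f := a) (g := fun z => fderiv ℝ (fun w => fderiv ℝ u w v) z v)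
    refine integrable_of_ts (fun z hz => ha.continuous.continuousAt.mul ?_) (hcs_of_sub hc hs)
    exact (((contDiffAt_d (hu z (hs hz)) v).fderiv_right (m := 0) (by norm_num)).continuousAt.clm_apply
      continuousAt_const)
  have i2 : ∀ v : ℂ, Integrable fun z => fderiv ℝ a z v * fderiv ℝ u z v := by
    intro v
    have hs : tsupport (fun z => fderiv ℝ a z v * fderiv ℝ u z v) ⊆ tsupport a :=
      (tsupport_mul_subset_left (f := fun z => fderiv ℝ a z v) (g := fun z => fderiv ℝ u z v)).trans (ts_fderiv a v)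
    refine integrable_of_ts (fun z hz => ?_) (hcs_of_sub hc hs)
    exact ((ha.continuous_fderiv (by norm_num)).clm_apply continuous_const).continuousAt.mul
      (contDiffAt_d (hu z (hs hz)) v).continuousAt
  rw [integral_congr_ae (Eventually.of_forall e), integral_add (i1 1) (i1 I), h1, h2,
    integral_add (i2 1) (i2 I)]
  ring

/-- **Green's second identity** -/
theorem green2 {a u : ℂ → ℝ} (ha : ContDiff ℝ 2 a) (hc : HasCompactSupport a)
    (hu : ∀ z ∈ tsupport a, ContDiffAt ℝ 2 u z) :
    ∫ z, a z * Δ u z = ∫ z, Δ a z * u z := by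
  rw [green1 (ha.of_le (by norm_num)) hc hu]
  have hu1 : ∀ z ∈ tsupport a, ContDiffAt ℝ 1 u z := fun z hz => (hu z hz).of_le (by norm_num)
  have hd : ∀ v : ℂ, ContDiff ℝ 1 fun z => fderiv ℝ a z v := fun v =>
    (ha.fderiv_right (m := 1) (by norm_num)).clm_apply contDiff_const
  have h1 : ∀ v : ℂ, ∫ z, fderiv ℝ a z v * fderiv ℝ u z v
      = - ∫ z, fderiv ℝ (fun w => fderiv ℝ a w v) z v * u z := fun v =>
    ibp (hd v) (hcs_of_sub hc (ts_fderiv a v)) (fun z hz => hu1 z (ts_fderiv a v hz)) v
  have e : ∀ z, Δ a z * u z = fderiv ℝ (fun w => fderiv ℝ a w 1) z 1 * u z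
      + fderiv ℝ (fun w => fderiv ℝ a w I) z I * u z := by
    intro z
    rw [lap_eq ha.contDiffAt]; ring
  have i1 : ∀ v : ℂ, Integrable fun z => fderiv ℝ (fun w => fderiv ℝ a w v) z v * u z := by
    intro v
    have hs : tsupport (fun z => fderiv ℝ (fun w => fderiv ℝ a w v) z v * u z) ⊆ tsupport a :=
      (tsupport_mul_subset_left (f := fun z => fderiv ℝ (fun w => fderiv ℝ a w v) z v) (g := u)).trans
        ((ts_fderiv _ v).trans (ts_fderiv a v))
    refine integrable_of_ts (fun z hz => ?_) (hcs_of_sub hc hs)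
    exact (((hd v).continuous_fderiv (by norm_num)).clm_apply continuous_const).continuousAt.mul
      (hu1 z (hs hz)).continuousAt
  have i2 : ∀ v : ℂ, Integrable fun z => fderiv ℝ a z v * fderiv ℝ u z v := by
    intro v
    have hs : tsupport (fun z => fderiv ℝ a z v * fderiv ℝ u z v) ⊆ tsupport a :=
      (tsupport_mul_subset_left (f := fun z => fderiv ℝ a z v) (g := fun z => fderiv ℝ u z v)).trans (ts_fderiv a v)
    refine integrable_of_ts (fun z hz => ?_) (hcs_of_sub hc hs)
    exact (hd v).continuous.continuousAt.mul (contDiffAt_d (hu z (hs hz)) v).continuousAt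
  rw [integral_congr_ae (Eventually.of_forall e), integral_add (i1 1) (i1 I), integral_add (i2 1) (i2 I),
    h1, h1]
  ring

end Pool.Agent.H30M
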