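import Pool.Agent.H30M.Reg

/-!
# Calculus of gradients and Laplacians on the complex plane
-/

set_option autoImplicit false

open MeasureTheory Complex Set Filter Topology Laplacian InnerProductSpace

namespace Pool.Agent.H30M

/-- scalar product of gradients -/
noncomputable def gg (u v : ℂ → ℝ) (z : ℂ) : ℝ :=
  fderiv ℝ u z 1 * fderiv ℝ v z 1 + fderiv ℝ u z I * fderiv ℝ v z I

theorem gg_comm (u v : ℂ → ℝ) (z : ℂ) : gg u v z = gg v u z := by
  unfold gg; ring

theorem gg_self_nonneg (u : ℂ → ℝ) (z : ℂ) : 0 ≤ gg u u z := by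
  unfold gg
  nlinarith [sq_nonneg (fderiv ℝ u z 1), sq_nonneg (fderiv ℝ u z I)]

/-- Cauchy-Schwarz -/
theorem gg_sq_le (u v : ℂ → ℝ) (z : ℂ) : gg u v z ^ 2 ≤ gg u u z * gg v v z := by
  unfold gg
  nlinarith [sq_nonneg (fderiv ℝ u z 1 * fderiv ℝ v z I - fderiv ℝ u z I * fderiv ℝ v z 1)]

theorem abs_gg_le (u v : ℂ → ℝ) (z : ℂ) : |gg u v z| ≤ √(gg u u z) * √(gg v v z) := by
  rw [← Real.sqrt_mul (gg_self_nonneg u z)]
  exact Real.abs_le_sqrt (gg_sq_le u v z)

theorem fderiv_comp_real {φ : ℝ → ℝ} {u : ℂ → ℝ} {z : ℂ} (hφ : DifferentiableAt ℝ φ (u z))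
    (hu : DifferentiableAt ℝ u z) (v : ℂ) :
    fderiv ℝ (fun w => φ (u w)) z v = deriv φ (u z) * fderiv ℝ u z v := by
  have h := hφ.hasDerivAt.comp_hasFDerivAt z hu.hasFDerivAt
  have h' : HasFDerivAt (fun w => φ (u w)) (deriv φ (u z) • fderiv ℝ u z) z := h
  rw [h'.fderiv]
  simp

theorem gg_comp {φ : ℝ → ℝ} {u v : ℂ → ℝ} {z : ℂ} (hφ : DifferentiableAt ℝ φ (u z))
    (hu : DifferentiableAt ℝ u z) :
    gg (fun w => φ (u w)) v z = deriv φ (u z) * gg u v z := by
  unfold gg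
  rw [fderiv_comp_real hφ hu, fderiv_comp_real hφ hu]
  ring

/-- **Laplacian of a composition** -/
theorem lap_comp {φ : ℝ → ℝ} {u : ℂ → ℝ} {z : ℂ} (hφ : ContDiffAt ℝ 2 φ (u z)) (hu : ContDiffAt ℝ 2 u z) :
    Δ (fun w => φ (u w)) z = deriv φ (u z) * Δ u z + deriv (deriv φ) (u z) * gg u u z := by
  have hc : ContDiffAt ℝ 2 (fun w => φ (u w)) z := hφ.comp z hu
  have hφ1 : ∀ᶠ w in 𝓝 z, DifferentiableAt ℝ φ (u w) ∧ DifferentiableAt ℝ u w := by
    have h1 := hu.continuousAt.eventually (hφ.eventually (by simp))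
    have h2 := hu.eventually (by simp)
    filter_upwards [h1, h2] with w hw hw'
    exact ⟨hw.differentiableAt (by norm_num), hw'.differentiableAt (by norm_num)⟩
  have hev : ∀ v : ℂ, (fun w => fderiv ℝ (fun w => φ (u w)) w v) =ᶠ[𝓝 z] fun w => deriv φ (u w) * fderiv ℝ u w v := by
    intro v
    filter_upwards [hφ1] with w hw
    exact fderiv_comp_real hw.1 hw.2 v
  have hd : DifferentiableAt ℝ (deriv φ) (u z) := by
    have h1 : ContDiffAt ℝ 1 (deriv φ) (u z) := by
      have h2 : ContDiffAt ℝ 1 (fun x => fderiv ℝ φ x 1) (u z) :=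
        (hφ.fderiv_right (m := 1) (by norm_num)).clm_apply contDiffAt_const
      have e : deriv φ = fun x => fderiv ℝ φ x 1 := by
        funext x; exact fderiv_apply_one_eq_deriv.symm
      rw [e]; exact h2
    exact h1.differentiableAt (by norm_num)
  have key : ∀ v : ℂ, fderiv ℝ (fun w => fderiv ℝ (fun w => φ (u w)) w v) z v =
      deriv φ (u z) * fderiv ℝ (fun w => fderiv ℝ u w v) z v
      + deriv (deriv φ) (u z) * (fderiv ℝ u z v * fderiv ℝ u z v) := by
    intro v
    rw [(hev v).fderiv_eq]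
    have h1 : DifferentiableAt ℝ (fun w => deriv φ (u w)) z := hd.comp z (hu.differentiableAt (by norm_num))
    have h2 : DifferentiableAt ℝ (fun w => fderiv ℝ u w v) z := (contDiffAt_d hu v).differentiableAt (by norm_num)
    rw [fderiv_fun_mul h1 h2]
    simp only [add_apply, smul_apply, smul_eq_mul]
    rw [fderiv_comp_real hd (hu.differentiableAt (by norm_num))]
    ring
  rw [lap_eq hc, key, key, lap_eq hu]
  unfold gg
  ring

/-- **Laplacian of a product** -/
theorem lap_mul {u v : ℂ → ℝ} {z : ℂ} (hu : ContDiffAt ℝ 2 u z) (hv : ContDiffAt ℝ 2 v z) :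
    Δ (fun w => u w * v w) z = u z * Δ v z + v z * Δ u z + 2 * gg u v z := by
  have hc : ContDiffAt ℝ 2 (fun w => u w * v w) z := hu.mul hv
  have h0 : ∀ᶠ w in 𝓝 z, DifferentiableAt ℝ u w ∧ DifferentiableAt ℝ v w := by
    filter_upwards [hu.eventually (by simp), hv.eventually (by simp)] with w hw hw'
    exact ⟨hw.differentiableAt (by norm_num), hw'.differentiableAt (by norm_num)⟩
  have hev : ∀ d : ℂ, (fun w => fderiv ℝ (fun w => u w * v w) w d) =ᶠ[𝓝 z]
      fun w => u w * fderiv ℝ v w d + v w * fderiv ℝ u w d := by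
    intro d
    filter_upwards [h0] with w hw
    rw [fderiv_fun_mul hw.1 hw.2]
    simp
  have key : ∀ d : ℂ, fderiv ℝ (fun w => fderiv ℝ (fun w => u w * v w) w d) z d =
      u z * fderiv ℝ (fun w => fderiv ℝ v w d) z d + v z * fderiv ℝ (fun w => fderiv ℝ u w d) z d
      + 2 * (fderiv ℝ u z d * fderiv ℝ v z d) := by
    intro d
    rw [(hev d).fderiv_eq]
    have h1 : DifferentiableAt ℝ u z := hu.differentiableAt (by norm_num)
    have h2 : DifferentiableAt ℝ v z := hv.differentiableAt (by norm_num)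
    have h3 : DifferentiableAt ℝ (fun w => fderiv ℝ u w d) z := (contDiffAt_d hu d).differentiableAt (by norm_num)
    have h4 : DifferentiableAt ℝ (fun w => fderiv ℝ v w d) z := (contDiffAt_d hv d).differentiableAt (by norm_num)
    have h5 : DifferentiableAt ℝ (fun w => u w * fderiv ℝ v w d) z := h1.mul h4
    have h6 : DifferentiableAt ℝ (fun w => v w * fderiv ℝ u w d) z := h2.mul h3
    rw [fderiv_fun_add h5 h6, fderiv_fun_mul h1 h4, fderiv_fun_mul h2 h3]
    simp only [add_apply, smul_apply, smul_eq_mul]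
    ring
  rw [lap_eq hc, key, key, lap_eq hu, lap_eq hv]
  unfold gg
  ring

theorem lap_add {u v : ℂ → ℝ} {z : ℂ} (hu : ContDiffAt ℝ 2 u z) (hv : ContDiffAt ℝ 2 v z) :
    Δ (fun w => u w + v w) z = Δ u z + Δ v z := hu.laplacian_add hv

theorem lap_sub {u v : ℂ → ℝ} {z : ℂ} (hu : ContDiffAt ℝ 2 u z) (hv : ContDiffAt ℝ 2 v z) :
    Δ (fun w => u w - v w) z = Δ u z - Δ v z := hu.laplacian_sub hv

theorem lap_const_mul {u : ℂ → ℝ} {z : ℂ} (hu : ContDiffAt ℝ 2 u z) (c : ℝ) :
    Δ (fun w => c * u w) z = c * Δ u z := by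
  have := laplacian_smul c hu
  exact this

theorem lap_congr {u v : ℂ → ℝ} {z : ℂ} (h : u =ᶠ[𝓝 z] v) : Δ u z = Δ v z :=
  (laplacian_congr_nhds h).eq_of_nhds

theorem gg_congr {u v w : ℂ → ℝ} {z : ℂ} (h : u =ᶠ[𝓝 z] v) : gg u w z = gg v w z := by
  unfold gg
  rw [h.fderiv_eq]

/-- The real part of `a(z) dz` applied to a vector: the gradient of `log ‖g‖`. -/
theorem fderiv_log_norm {g : ℂ → ℂ} {w : ℂ} (hg : DifferentiableAt ℂ g w) (h0 : g w ≠ 0) (v : ℂ) :
    fderiv ℝ (fun z => Real.log ‖g z‖) w v = (deriv g w / g w * v).re := by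
  have h1 : HasFDerivAt g ((ContinuousLinearMap.toSpanSingleton ℂ (deriv g w)).restrictScalars ℝ) w :=
    hg.hasDerivAt.hasFDerivAt.restrictScalars ℝ
  have h2 := h1.norm_sq
  have hne : ‖g w‖ ^ 2 ≠ 0 := by
    have := norm_pos_iff.2 h0
    positivity
  have h3 := (h2.log hne).const_mul (1 / 2 : ℝ)
  have e : (fun z => Real.log ‖g z‖) = fun z => (1 / 2 : ℝ) * Real.log (‖g z‖ ^ 2) := by
    funext z
    rw [Real.log_pow]
    push_cast
    ring
  rw [e, h3.fderiv]
  have hn : (g w).re ^ 2 + (g w).im ^ 2 ≠ 0 := by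
    rw [← Complex.normSq_eq_norm_sq, Complex.normSq_apply] at hne
    intro h
    apply hne
    rw [← h]
    ring
  simp only [smul_apply, smul_eq_mul, ContinuousLinearMap.comp_apply, innerSL_apply_apply,
    ContinuousLinearMap.coe_restrictScalars', ContinuousLinearMap.toSpanSingleton_apply]
  rw [← Complex.normSq_eq_norm_sq, Complex.normSq_apply, Complex.inner]
  have h5 : (deriv g w / g w * v).re = ((v * deriv g w) / g w).re := by
    congr 1
    ring
  rw [h5, Complex.div_re, Complex.normSq_apply]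
  have hn' : (g w).re * (g w).re + (g w).im * (g w).im ≠ 0 := by
    intro h
    apply hn
    rw [← h]
    ring
  simp only [mul_re, conj_re, conj_im, mul_im]
  field_simp
  ring

end Pool.Agent.H30M
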