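import Pool.Agent.H30M.Reg

/-!
# The fundamental solution: `∫ Δτ log |z - a| = 2 π τ(a)`
-/

set_option autoImplicit false

open MeasureTheory Complex Set Filter Topology Laplacian InnerProductSpace Metric

namespace Pool.Agent.H30M

/-- `log ‖z‖` is integrable on balls. -/
theorem integrableOn_log_ball (r : ℝ) : IntegrableOn (fun z : ℂ => Real.log ‖z‖) (ball 0 r) := by
  have h := (integrableOn_fun_norm_addHaar (E := ℂ) (μ := volume) (f := Real.log) (r := r)).2
  apply h
  have h1 : Continuous fun y : ℝ => y * Real.log y := Real.continuous_mul_log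
  have h2 : IntegrableOn (fun y : ℝ => y * Real.log y) (Icc 0 r) := h1.continuousOn.integrableOn_Icc
  refine (h2.mono_set Ioo_subset_Icc_self).congr_fun (fun y _ => ?_) measurableSet_Ioo
  simp [Complex.finrank_real_complex]

theorem locInt_log (a : ℂ) : LocallyIntegrable (fun z : ℂ => Real.log ‖z - a‖) := by
  have h0 : LocallyIntegrable (fun z : ℂ => Real.log ‖z‖) := by
    intro z
    refine ⟨ball 0 (‖z‖ + 1), isOpen_ball.mem_nhds (by simp), integrableOn_log_ball _⟩
  intro z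
  obtain ⟨s, hs, hi⟩ := h0 (z - a)
  refine ⟨(fun w => w - a) ⁻¹' s, ?_, ?_⟩
  · exact (continuous_sub_right a).continuousAt.preimage_mem_nhds hs
  · have hmp : MeasurePreserving (fun w : ℂ => w - a) volume volume := measurePreserving_sub_right volume a
    exact (hmp.integrableOn_comp_preimage (MeasurableEquiv.subRight a).measurableEmbedding).2 hi

theorem int_kernel : ∫ w : ℂ, 2 / (‖w‖ ^ 2 + 1) ^ 2 = 2 * Real.pi := by
  have h := integral_fun_norm_addHaar (volume : Measure ℂ) (fun y : ℝ => 2 / (y ^ 2 + 1) ^ 2)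
  rw [h, Complex.finrank_real_complex]
  have h1 : ∫ y in Ioi (0 : ℝ), y ^ (2 - 1) • (2 / (y ^ 2 + 1) ^ 2) = 1 := by
    have hd : ∀ y ∈ Ici (0 : ℝ), HasDerivAt (fun y : ℝ => - (1 / (y ^ 2 + 1))) (y ^ (2 - 1) • (2 / (y ^ 2 + 1) ^ 2)) y := by
      intro y _
      have h2 : HasDerivAt (fun y : ℝ => y ^ 2 + 1) (2 * y) y := by
        simpa using (hasDerivAt_pow 2 y).add_const (1 : ℝ)
      have h3 := (h2.inv (by positivity)).neg
      refine (h3.congr_of_eventuallyEq (Eventually.of_forall fun y => ?_)).congr_deriv ?_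
      · simp
      · have : y ^ 2 + 1 ≠ 0 := by positivity
        simp only [smul_eq_mul]
        field_simp
        norm_num
    have hl : Tendsto (fun y : ℝ => - (1 / (y ^ 2 + 1))) atTop (𝓝 0) := by
      have : Tendsto (fun y : ℝ => y ^ 2 + 1) atTop atTop :=
        tendsto_atTop_add_const_right _ _ (tendsto_pow_atTop (by norm_num))
      have h4 := (this.const_div_atTop (1 : ℝ)).neg
      simpa using h4
    have := integral_Ioi_of_hasDerivAt_of_nonneg' hd (fun y hy => by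
      have : (0 : ℝ) < y := hy
      rw [smul_eq_mul]; positivity) hl
    rw [this]
    simp
  rw [h1]
  have hv : volume.real (ball (0 : ℂ) 1) = Real.pi := by
    rw [Measure.real, Complex.volume_ball]
    simp
  rw [hv]
  simp

theorem integrable_kernel : Integrable fun w : ℂ => 2 / (‖w‖ ^ 2 + 1) ^ 2 := by
  by_contra h
  have := integral_undef h
  rw [int_kernel] at this
  have hp := Real.pi_pos
  linarith

theorem lap_rl_sub {ε : ℝ} (hε : 0 < ε) (a z : ℂ) :
    Δ (rl ε fun w => w - a) z = 2 * ε ^ 2 / (‖z - a‖ ^ 2 + ε ^ 2) ^ 2 := by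
  rw [lap_rl hε (by fun_prop)]
  simp

theorem fund_lhs {τ : ℂ → ℝ} (hτ : Continuous τ) (hc : HasCompactSupport τ) (a : ℂ) :
    Tendsto (fun n : ℕ => ∫ z, τ z * Δ (rl (1 / ((n : ℝ) + 1)) fun w => w - a) z) atTop (𝓝 (2 * Real.pi * τ a)) := by
  have e : ∀ ε : ℝ, 0 < ε → ∫ z, τ z * Δ (rl ε fun w => w - a) z
      = ∫ w : ℂ, τ (a + ε • w) * (2 / (‖w‖ ^ 2 + 1) ^ 2) := by
    intro ε hε
    have h1 : ∫ z, τ z * Δ (rl ε fun w => w - a) z = ∫ z, τ (z + a) * (2 * ε ^ 2 / (‖z‖ ^ 2 + ε ^ 2) ^ 2) := by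
      rw [← integral_add_right_eq_self _ a]
      congr 1
      funext z
      rw [lap_rl_sub hε, add_sub_cancel_right]
    have h2 := Measure.integral_comp_smul_of_nonneg (volume : Measure ℂ)
      (fun z : ℂ => τ (z + a) * (2 * ε ^ 2 / (‖z‖ ^ 2 + ε ^ 2) ^ 2)) ε (hR := hε.le)
    rw [Complex.finrank_real_complex] at h2
    have h3 : ∀ w : ℂ, τ (a + ε • w) * (2 / (‖w‖ ^ 2 + 1) ^ 2)
        = ε ^ 2 * (τ (ε • w + a) * (2 * ε ^ 2 / (‖ε • w‖ ^ 2 + ε ^ 2) ^ 2)) := by
      intro w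
      rw [norm_smul, Real.norm_of_nonneg hε.le, add_comm a]
      have : ‖w‖ ^ 2 + 1 ≠ 0 := by positivity
      have e2 : (ε * ‖w‖) ^ 2 + ε ^ 2 = ε ^ 2 * (‖w‖ ^ 2 + 1) := by ring
      rw [e2]
      field_simp
    rw [h1, integral_congr_ae (Eventually.of_forall h3), integral_const_mul, h2, smul_eq_mul, ← mul_assoc,
      mul_inv_cancel₀ (by positivity), one_mul]
  have e' : ∀ n : ℕ, ∫ z, τ z * Δ (rl (1 / ((n : ℝ) + 1)) fun w => w - a) z
      = ∫ w : ℂ, τ (a + (1 / ((n : ℝ) + 1)) • w) * (2 / (‖w‖ ^ 2 + 1) ^ 2) := fun n => e _ (by positivity)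
  simp_rw [e']
  have hlim : 2 * Real.pi * τ a = ∫ w : ℂ, τ a * (2 / (‖w‖ ^ 2 + 1) ^ 2) := by
    rw [integral_const_mul, int_kernel]; ring
  rw [hlim]
  obtain ⟨C, hC⟩ := hτ.bounded_above_of_compact_support hc
  refine tendsto_integral_of_dominated_convergence (fun w => C * (2 / (‖w‖ ^ 2 + 1) ^ 2)) ?_
    (integrable_kernel.const_mul C) ?_ ?_
  · intro n
    refine Continuous.aestronglyMeasurable ?_
    refine (hτ.comp (by fun_prop)).mul (Continuous.div (by fun_prop) (by fun_prop) fun w => by positivity)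
  · intro n
    refine Eventually.of_forall fun w => ?_
    rw [norm_mul, Real.norm_of_nonneg (by positivity : (0 : ℝ) ≤ 2 / (‖w‖ ^ 2 + 1) ^ 2)]
    exact mul_le_mul_of_nonneg_right (hC _) (by positivity)
  · refine Eventually.of_forall fun w => ?_
    refine Tendsto.mul_const _ ?_
    have h1 : Tendsto (fun n : ℕ => a + (1 / ((n : ℝ) + 1)) • w) atTop (𝓝 (a + (0 : ℝ) • w)) :=
      (tendsto_one_div_add_atTop_nhds_zero_nat.smul_const w).const_add a
    rw [zero_smul, add_zero] at h1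
    exact (hτ.tendsto a).comp h1

theorem fund_rhs {φ : ℂ → ℝ} (hφ : Continuous φ) (hc : HasCompactSupport φ) (a : ℂ) :
    Tendsto (fun n : ℕ => ∫ z, φ z * rl (1 / ((n : ℝ) + 1)) (fun w => w - a) z) atTop
      (𝓝 (∫ z, φ z * Real.log ‖z - a‖)) := by
  have hi1 : Integrable fun z : ℂ => |φ z| * |Real.log ‖z - a‖| := by
    have := (locInt_log a).integrable_smul_left_of_hasCompactSupport hφ hc
    simpa [abs_mul, smul_eq_mul] using this.abs
  have hi2 : Integrable fun z : ℂ => |φ z| * Real.log (‖z - a‖ ^ 2 + 1) := by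
    refine Continuous.integrable_of_hasCompactSupport ?_ ?_
    · exact (continuous_abs.comp hφ).mul (Continuous.log (by fun_prop) fun z => by positivity)
    · exact (hc.comp_left (g := fun x : ℝ => |x|) abs_zero).mul_right
  refine tendsto_integral_of_dominated_convergence
    (fun z => |φ z| * |Real.log ‖z - a‖| + |φ z| * Real.log (‖z - a‖ ^ 2 + 1)) ?_ (hi1.add hi2) ?_ ?_
  · intro n
    refine (hφ.mul ?_).aestronglyMeasurable
    unfold rl
    exact (Continuous.log (by fun_prop) fun z => by positivity).div_const 2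
  · intro n
    have hne : ∀ᵐ z : ℂ, z ≠ a := by
      rw [ae_iff]
      simp
    filter_upwards [hne] with z hz
    have hz' : 0 < ‖z - a‖ := norm_pos_iff.2 (sub_ne_zero.2 hz)
    rw [norm_mul, Real.norm_eq_abs, ← mul_add]
    refine mul_le_mul_of_nonneg_left ?_ (abs_nonneg _)
    rw [Real.norm_eq_abs, abs_le]
    have h1 : (0 : ℝ) < 1 / ((n : ℝ) + 1) := by positivity
    have h2 : (1 / ((n : ℝ) + 1)) ≤ 1 := by
      rw [div_le_one (by positivity)]
      have : (0 : ℝ) ≤ n := n.cast_nonneg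
      linarith
    have h3 : (1 / ((n : ℝ) + 1)) ^ 2 ≤ 1 := pow_le_one₀ h1.le h2
    have h4 : Real.log (‖z - a‖ ^ 2) = 2 * Real.log ‖z - a‖ := by
      rw [Real.log_pow]; norm_num
    have h5 : Real.log (‖z - a‖ ^ 2) ≤ Real.log (‖z - a‖ ^ 2 + (1 / ((n : ℝ) + 1)) ^ 2) :=
      Real.log_le_log (by positivity) (by nlinarith)
    have h6 : Real.log (‖z - a‖ ^ 2 + (1 / ((n : ℝ) + 1)) ^ 2) ≤ Real.log (‖z - a‖ ^ 2 + 1) :=
      Real.log_le_log (by positivity) (by linarith)
    have h7 : 0 ≤ Real.log (‖z - a‖ ^ 2 + 1) := Real.log_nonneg (by nlinarith [sq_nonneg ‖z - a‖])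
    unfold rl
    constructor
    · have := neg_abs_le (Real.log ‖z - a‖)
      linarith
    · have := abs_nonneg (Real.log ‖z - a‖)
      linarith
  · have hne : ∀ᵐ z : ℂ, z ≠ a := by
      rw [ae_iff]
      simp
    filter_upwards [hne] with z hz
    have hz' : 0 < ‖z - a‖ := norm_pos_iff.2 (sub_ne_zero.2 hz)
    refine Tendsto.const_mul _ ?_
    unfold rl
    have h1 : Tendsto (fun n : ℕ => ‖z - a‖ ^ 2 + (1 / ((n : ℝ) + 1)) ^ 2) atTop (𝓝 (‖z - a‖ ^ 2 + 0 ^ 2)) :=
      (tendsto_one_div_add_atTop_nhds_zero_nat.pow 2).const_add _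
    have h2 := ((Real.continuousAt_log (x := ‖z - a‖ ^ 2 + 0 ^ 2) (by positivity)).tendsto.comp h1).div_const 2
    have h3 : Real.log (‖z - a‖ ^ 2 + 0 ^ 2) / 2 = Real.log ‖z - a‖ := by
      rw [zero_pow (by norm_num), add_zero, Real.log_pow]
      push_cast
      ring
    rw [h3] at h2
    exact h2

/-- **The fundamental solution** -/
theorem fund {τ : ℂ → ℝ} (hτ : ContDiff ℝ 2 τ) (hc : HasCompactSupport τ) (a : ℂ) :
    ∫ z, Δ τ z * Real.log ‖z - a‖ = 2 * Real.pi * τ a := by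
  have hL : Continuous (Δ τ) := by
    have e : Δ τ = fun z => fderiv ℝ (fun w => fderiv ℝ τ w 1) z 1 + fderiv ℝ (fun w => fderiv ℝ τ w I) z I :=
      funext fun z => lap_eq hτ.contDiffAt
    rw [e]
    have hd : ∀ v : ℂ, ContDiff ℝ 1 fun z => fderiv ℝ τ z v := fun v =>
      (hτ.fderiv_right (m := 1) (by norm_num)).clm_apply contDiff_const
    exact (((hd 1).continuous_fderiv (by norm_num)).clm_apply continuous_const).add
      (((hd I).continuous_fderiv (by norm_num)).clm_apply continuous_const)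
  have h1 := fund_lhs hτ.continuous hc a
  have h2 := fund_rhs hL (hcs_of_sub hc (ts_lap τ)) a
  refine tendsto_nhds_unique h2 (h1.congr fun n => ?_)
  exact green2 hτ hc fun z _ => contDiffAt_rl (by positivity) (by fun_prop)

end Pool.Agent.H30M
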