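import Pool.Agent.H30M.Mean2

/-!
# The key inequality, the charge of a level region and the passes (one variable, abstract form)

Data: `L` of class `C²` with `0 ≤ Δ L`, `g` entire, not `0`, `‖g‖ ≤ exp (d L)`, `u = log ‖g‖ - d L`.
-/

set_option autoImplicit false

open MeasureTheory Complex Set Filter Topology Laplacian InnerProductSpace Metric

namespace Pool.Agent.H30M

/-- `I R = ∫ tau R * Δ L` -/
noncomputable def II (L : ℂ → ℝ) (R : ℝ) : ℝ := ∫ z, tau R z * Δ L z

/-- `u = log ‖g‖ - d L` -/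
noncomputable def uu (L : ℂ → ℝ) (g : ℂ → ℂ) (d : ℝ) (z : ℂ) : ℝ := Real.log ‖g z‖ - d * L z

/-- `e^(2u)` -/
noncomputable def e2u (L : ℂ → ℝ) (g : ℂ → ℂ) (d : ℝ) (z : ℂ) : ℝ := ‖g z‖ ^ 2 * Real.exp (-(2 * d * L z))

/-- `e^(2u) |∇u|²` -/
noncomputable def GG (L : ℂ → ℝ) (g : ℂ → ℂ) (d : ℝ) (z : ℂ) : ℝ :=
  ‖deriv g z - d * g z * (⟨fderiv ℝ L z 1, - fderiv ℝ L z I⟩ : ℂ)‖ ^ 2 * Real.exp (-(2 * d * L z))

/-- the charge density `K''(u) |∇u|²` for `K(u) = 1/2 log (e^(2u) + e^(2b))` -/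
noncomputable def HH (L : ℂ → ℝ) (g : ℂ → ℂ) (d b : ℝ) (z : ℂ) : ℝ :=
  2 * Real.exp (2 * b) * GG L g d z / (e2u L g d z + Real.exp (2 * b)) ^ 2

/-- `K(u)` -/
noncomputable def KK (L : ℂ → ℝ) (g : ℂ → ℂ) (d b : ℝ) (z : ℂ) : ℝ := Real.log (e2u L g d z + Real.exp (2 * b)) / 2

theorem e2u_nonneg (L : ℂ → ℝ) (g : ℂ → ℂ) (d : ℝ) (z : ℂ) : 0 ≤ e2u L g d z := by unfold e2u; positivity

theorem GG_nonneg (L : ℂ → ℝ) (g : ℂ → ℂ) (d : ℝ) (z : ℂ) : 0 ≤ GG L g d z := by unfold GG; positivity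

theorem HH_nonneg (L : ℂ → ℝ) (g : ℂ → ℂ) (d b : ℝ) (z : ℂ) : 0 ≤ HH L g d b z := by
  unfold HH
  have := GG_nonneg L g d z
  positivity

section

variable {L : ℂ → ℝ} {g : ℂ → ℂ} {d : ℝ}

theorem e2u_eq {z : ℂ} (h : g z ≠ 0) : e2u L g d z = Real.exp (2 * uu L g d z) := by
  unfold e2u uu
  have hp : 0 < ‖g z‖ := norm_pos_iff.2 h
  have e : 2 * (Real.log ‖g z‖ - d * L z) = Real.log (‖g z‖ ^ 2) + (-(2 * d * L z)) := by
    rw [Real.log_pow]; push_cast; ring
  rw [e, Real.exp_add, Real.exp_log (by positivity)]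

theorem contDiff_g (hg : Differentiable ℂ g) : ContDiff ℝ 2 g := (hg.contDiff (n := 2)).restrict_scalars ℝ

theorem contDiff_KK (hL : ContDiff ℝ 2 L) (hg : Differentiable ℂ g) (b : ℝ) : ContDiff ℝ 2 (KK L g d b) := by
  have h1 : ContDiff ℝ 2 fun z => ‖g z‖ ^ 2 := (contDiff_g hg).norm_sq ℝ
  have h2 : ContDiff ℝ 2 fun z => Real.exp (-(2 * d * L z)) := ((contDiff_const.mul hL).neg).exp
  have h3 : ContDiff ℝ 2 fun z => e2u L g d z + Real.exp (2 * b) := (h1.mul h2).add contDiff_const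
  exact (h3.log fun z => by have := e2u_nonneg L g d z; positivity).div_const 2

theorem continuous_e2u (hL : ContDiff ℝ 2 L) (hg : Differentiable ℂ g) : Continuous (e2u L g d) := by
  unfold e2u
  have h1 := hL.continuous
  have h2 := hg.continuous
  fun_prop

theorem continuous_GG (hL : ContDiff ℝ 2 L) (hg : Differentiable ℂ g) : Continuous (GG L g d) := by
  unfold GG
  have h1 := hL.continuous
  have h2 := hg.continuous
  have h3 : Continuous (deriv g) := (hg.contDiff (n := 1)).continuous_deriv (by norm_num)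
  have h4 : Continuous fun z => fderiv ℝ L z 1 := (hL.continuous_fderiv (by norm_num)).clm_apply continuous_const
  have h5 : Continuous fun z => fderiv ℝ L z I := (hL.continuous_fderiv (by norm_num)).clm_apply continuous_const
  have h6 : Continuous fun z => (⟨fderiv ℝ L z 1, - fderiv ℝ L z I⟩ : ℂ) := by
    have e : (fun z => (⟨fderiv ℝ L z 1, - fderiv ℝ L z I⟩ : ℂ)) = fun z => ((fderiv ℝ L z 1 : ℝ) : ℂ) - (fderiv ℝ L z I : ℝ) * I := by
      funext z
      apply Complex.ext <;> simp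
    rw [e]
    exact (continuous_ofReal.comp h4).sub ((continuous_ofReal.comp h5).mul continuous_const)
  exact ((h3.sub ((continuous_const.mul h2).mul h6)).norm.pow 2).mul (by fun_prop)

theorem continuous_HH (hL : ContDiff ℝ 2 L) (hg : Differentiable ℂ g) (b : ℝ) : Continuous (HH L g d b) := by
  unfold HH
  refine (continuous_const.mul (continuous_GG hL hg)).div (((continuous_e2u hL hg).add continuous_const).pow 2) fun z => ?_
  have := e2u_nonneg L g d z
  positivity

theorem contDiffAt_uu (hL : ContDiff ℝ 2 L) (hg : Differentiable ℂ g) {z : ℂ} (h : g z ≠ 0) : ContDiffAt ℝ 2 (uu L g d) z :=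
  (contDiffAt_log_norm (hg.analyticAt z) h).sub (contDiffAt_const.mul hL.contDiffAt)

theorem GG_eq (hL : ContDiff ℝ 2 L) (hg : Differentiable ℂ g) {z : ℂ} (h : g z ≠ 0) :
    GG L g d z = e2u L g d z * gg (uu L g d) (uu L g d) z := by
  have hu : ∀ v : ℂ, fderiv ℝ (uu L g d) z v = (deriv g z / g z * v).re - d * fderiv ℝ L z v := by
    intro v
    have h1 : DifferentiableAt ℝ (fun z => Real.log ‖g z‖) z := (contDiffAt_log_norm (hg.analyticAt z) h).differentiableAt (by norm_num)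
    have h2 : DifferentiableAt ℝ L z := hL.differentiable (by norm_num) z
    have h3 : HasFDerivAt (uu L g d) (fderiv ℝ (fun z => Real.log ‖g z‖) z - d • fderiv ℝ L z) z :=
      h1.hasFDerivAt.sub (h2.hasFDerivAt.const_mul d)
    rw [h3.fderiv]
    simp only [sub_apply, smul_apply, smul_eq_mul]
    rw [fderiv_log_norm (hg z) h]
  unfold GG e2u gg
  rw [hu, hu]
  set a := fderiv ℝ L z 1
  set b := fderiv ℝ L z I
  have e1 : deriv g z - d * g z * (⟨a, -b⟩ : ℂ) = g z * (deriv g z / g z - d * (⟨a, -b⟩ : ℂ)) := by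
    field_simp
  rw [e1, norm_mul, mul_pow]
  have e2 : ‖deriv g z / g z - d * (⟨a, -b⟩ : ℂ)‖ ^ 2 = ((deriv g z / g z * 1).re - d * a) * ((deriv g z / g z * 1).re - d * a) +
      ((deriv g z / g z * I).re - d * b) * ((deriv g z / g z * I).re - d * b) := by
    rw [← Complex.normSq_eq_norm_sq, Complex.normSq_apply]
    simp only [sub_re, sub_im, mul_re, mul_im, ofReal_re, ofReal_im, I_re, I_im, one_re, one_im]
    ring
  rw [e2]
  ring

private theorem ky_phi (b t : ℝ) : HasDerivAt (fun t : ℝ => Real.log (Real.exp (2 * t) + Real.exp (2 * b)) / 2)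
    (Real.exp (2 * t) / (Real.exp (2 * t) + Real.exp (2 * b))) t := by
  have h1 : HasDerivAt (fun t : ℝ => Real.exp (2 * t)) (Real.exp (2 * t) * (2 * 1)) t :=
    ((hasDerivAt_id t).const_mul 2).exp
  have h2 := ((h1.add_const (Real.exp (2 * b))).log (by positivity)).div_const 2
  refine h2.congr_deriv ?_
  have : Real.exp (2 * t) + Real.exp (2 * b) ≠ 0 := by positivity
  field_simp

private theorem ky_phi2 (b t : ℝ) : HasDerivAt (fun t : ℝ => Real.exp (2 * t) / (Real.exp (2 * t) + Real.exp (2 * b)))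
    (2 * Real.exp (2 * b) * Real.exp (2 * t) / (Real.exp (2 * t) + Real.exp (2 * b)) ^ 2) t := by
  have h1 : HasDerivAt (fun t : ℝ => Real.exp (2 * t)) (Real.exp (2 * t) * (2 * 1)) t :=
    ((hasDerivAt_id t).const_mul 2).exp
  have h2 := h1.div (h1.add_const (Real.exp (2 * b))) (by positivity)
  refine h2.congr_deriv ?_
  ring

/-- **Laplacian of `K(u)`** -/
theorem lap_KK (hL : ContDiff ℝ 2 L) (hg : Differentiable ℂ g) (b : ℝ) {z : ℂ} (h : g z ≠ 0) :
    Δ (KK L g d b) z = HH L g d b z - e2u L g d z / (e2u L g d z + Real.exp (2 * b)) * (d * Δ L z) := by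
  set φ : ℝ → ℝ := fun t => Real.log (Real.exp (2 * t) + Real.exp (2 * b)) / 2 with hφ
  have hev : KK L g d b =ᶠ[𝓝 z] fun w => φ (uu L g d w) := by
    filter_upwards [hg.continuous.continuousAt.eventually_ne h] with w hw
    unfold KK
    rw [e2u_eq hw]
  have hφc : ContDiff ℝ 2 φ := by
    have h1 : ContDiff ℝ 2 fun t : ℝ => Real.exp (2 * t) + Real.exp (2 * b) :=
      ((contDiff_const.mul contDiff_id).exp).add contDiff_const
    exact (h1.log fun t => by positivity).div_const 2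
  have hu := contDiffAt_uu (d := d) hL hg h
  rw [lap_congr hev, lap_comp hφc.contDiffAt hu]
  have d1 : deriv φ = fun t => Real.exp (2 * t) / (Real.exp (2 * t) + Real.exp (2 * b)) := funext fun t => (ky_phi b t).deriv
  have d2 : deriv (deriv φ) (uu L g d z) = 2 * Real.exp (2 * b) * Real.exp (2 * uu L g d z) /
      (Real.exp (2 * uu L g d z) + Real.exp (2 * b)) ^ 2 := by
    rw [d1]; exact (ky_phi2 b _).deriv
  have hlu : Δ (uu L g d) z = - (d * Δ L z) := by
    have h1 := contDiffAt_log_norm (hg.analyticAt z) h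
    have h2 : ContDiffAt ℝ 2 (fun w => d * L w) z := contDiffAt_const.mul hL.contDiffAt
    have h3 : Δ (uu L g d) z = _ := lap_sub h1 h2
    rw [h3, lap_log_norm (hg.analyticAt z) h, lap_const_mul hL.contDiffAt]
    ring
  rw [hlu, d2, d1]
  unfold HH
  rw [GG_eq hL hg h, e2u_eq h]
  ring

theorem HH_eq (hL : ContDiff ℝ 2 L) (hg : Differentiable ℂ g) (b : ℝ) {z : ℂ} (h : g z ≠ 0) :
    HH L g d b z = 2 * Real.exp (2 * b) * Real.exp (2 * uu L g d z) /
      (Real.exp (2 * uu L g d z) + Real.exp (2 * b)) ^ 2 * gg (uu L g d) (uu L g d) z := by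
  unfold HH
  rw [GG_eq hL hg h, e2u_eq h]
  ring

theorem ae_ne_zero (hg : Differentiable ℂ g) (h0 : ∃ z, g z ≠ 0) : ∀ᵐ z : ℂ, g z ≠ 0 := by
  have hA : AnalyticOnNhd ℂ g univ := fun z _ => hg.analyticAt z
  obtain ⟨w, hw⟩ := h0
  have h1 : g ⁻¹' {0}ᶜ ∈ codiscreteWithin (univ : Set ℂ) := hA.preimage_zero_mem_codiscrete (x := w) hw
  have h2 := ae_restrict_le_codiscreteWithin (μ := (volume : Measure ℂ)) MeasurableSet.univ h1
  rw [Measure.restrict_univ] at h2
  exact h2

theorem e2u_le_one (hle : ∀ z, ‖g z‖ ≤ Real.exp (d * L z)) (z : ℂ) : e2u L g d z ≤ 1 := by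
  unfold e2u
  have h1 : ‖g z‖ ^ 2 ≤ Real.exp (d * L z) ^ 2 := pow_le_pow_left₀ (norm_nonneg _) (hle z) 2
  have h2 : Real.exp (d * L z) ^ 2 * Real.exp (-(2 * d * L z)) = 1 := by
    rw [← Real.exp_nat_mul, ← Real.exp_add]
    push_cast
    rw [show (2 : ℝ) * (d * L z) + -(2 * d * L z) = 0 by ring, Real.exp_zero]
  calc _ ≤ Real.exp (d * L z) ^ 2 * Real.exp (-(2 * d * L z)) := mul_le_mul_of_nonneg_right h1 (Real.exp_pos _).le
    _ = 1 := h2

theorem integrable_tau_mul {R : ℝ} (hR : 1 ≤ R) {f : ℂ → ℝ} (hf : Continuous f) : Integrable fun z => tau R z * f z :=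
  ((contDiff_tau R).continuous.mul hf).integrable_of_hasCompactSupport (hcs_tau hR).mul_right

theorem integrable_rhoR_mul {R : ℝ} (hR : 1 ≤ R) {f : ℂ → ℝ} (hf : Continuous f) : Integrable fun z => rhoR R z * f z :=
  ((continuous_rhoR R).mul hf).integrable_of_hasCompactSupport (hcs_rhoR hR).mul_right

theorem avg_le {R : ℝ} (hR : 1 ≤ R) {f : ℂ → ℝ} (hf : Continuous f) {M : ℝ} (h : ∀ z, f z ≤ M) : avg R f ≤ 2 * Real.pi * M := by
  unfold avg
  have h1 : Integrable (rhoR R) := (continuous_rhoR R).integrable_of_hasCompactSupport (hcs_rhoR hR)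
  calc ∫ z, rhoR R z * f z ≤ ∫ z, rhoR R z * M :=
        integral_mono (integrable_rhoR_mul hR hf) (h1.mul_const M) fun z => mul_le_mul_of_nonneg_left (h z) (rhoR_nonneg R z)
    _ = 2 * Real.pi * M := by rw [integral_mul_const, int_rhoR hR]

theorem le_avg {R : ℝ} (hR : 1 ≤ R) {f : ℂ → ℝ} (hf : Continuous f) {M : ℝ} (h : ∀ z, M ≤ f z) : 2 * Real.pi * M ≤ avg R f := by
  unfold avg
  have h1 : Integrable (rhoR R) := (continuous_rhoR R).integrable_of_hasCompactSupport (hcs_rhoR hR)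
  calc 2 * Real.pi * M = ∫ z, rhoR R z * M := by rw [integral_mul_const, int_rhoR hR]
    _ ≤ ∫ z, rhoR R z * f z :=
        integral_mono (h1.mul_const M) (integrable_rhoR_mul hR hf) fun z => mul_le_mul_of_nonneg_left (h z) (rhoR_nonneg R z)

/-- **The key inequality** -/
theorem key (hL : ContDiff ℝ 2 L) (hL0 : ∀ z, 0 ≤ Δ L z) (hg : Differentiable ℂ g) (h0 : ∃ z, g z ≠ 0) (hd : 0 ≤ d)
    (hle : ∀ z, ‖g z‖ ≤ Real.exp (d * L z)) (b : ℝ) {R : ℝ} (hR : 1 ≤ R) :
    ∫ z, tau R z * HH L g d b z ≤ d * II L R + 2 * Real.pi * (Real.log (1 + Real.exp (2 * b)) / 2 - b) := by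
  have hK := contDiff_KK (d := d) hL hg b
  have hcL := continuous_lap hL
  have hcK := continuous_lap hK
  have i1 := integrable_tau_mul hR (continuous_HH (d := d) hL hg b)
  have i2 := integrable_tau_mul hR hcK
  have i3 := integrable_tau_mul hR hcL
  have h1 : ∫ z, tau R z * HH L g d b z ≤ ∫ z, (tau R z * Δ (KK L g d b) z + d * (tau R z * Δ L z)) := by
    refine integral_mono_ae i1 (i2.add (i3.const_mul d)) ?_
    filter_upwards [ae_ne_zero hg h0] with z hz
    rw [lap_KK hL hg b hz]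
    have hq : e2u L g d z / (e2u L g d z + Real.exp (2 * b)) ≤ 1 := by
      rw [div_le_one (by have := e2u_nonneg L g d z; positivity)]
      have := Real.exp_pos (2 * b)
      linarith
    have ht := tau_nonneg hR z
    have hdL : 0 ≤ d * Δ L z := mul_nonneg hd (hL0 z)
    have h2 : e2u L g d z / (e2u L g d z + Real.exp (2 * b)) * (d * Δ L z) ≤ d * Δ L z := by nlinarith
    nlinarith [mul_nonneg ht (sub_nonneg.2 h2)]
  rw [integral_add i2 (i3.const_mul d), integral_const_mul, green_tau hR hK] at h1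
  have h3 : avg R (KK L g d b) ≤ 2 * Real.pi * (Real.log (1 + Real.exp (2 * b)) / 2) := by
    refine avg_le hR hK.continuous fun z => ?_
    unfold KK
    have := Real.log_le_log (by have := e2u_nonneg L g d z; positivity) (add_le_add_left (e2u_le_one hle z) (Real.exp (2 * b)))
    linarith
  have h4 : 2 * Real.pi * b ≤ avg 1 (KK L g d b) := by
    refine le_avg le_rfl hK.continuous fun z => ?_
    unfold KK
    have h5 : Real.log (Real.exp (2 * b)) ≤ Real.log (e2u L g d z + Real.exp (2 * b)) :=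
      Real.log_le_log (Real.exp_pos _) (by have := e2u_nonneg L g d z; linarith)
    rw [Real.log_exp] at h5
    linarith
  unfold II
  linarith

private theorem ky_kap {t : ℝ} (h1 : -1 ≤ t) (h2 : t ≤ 1) : 1 / 5 ≤ 2 * Real.exp (2 * t) / (Real.exp (2 * t) + 1) ^ 2 := by
  have hx : 0 < Real.exp (2 * t) := Real.exp_pos _
  have e1 : Real.exp (2 * t) ≤ 7.4 := by
    have h3 : Real.exp (2 * t) ≤ Real.exp 2 := Real.exp_le_exp.2 (by linarith)
    have h4 : Real.exp 2 = Real.exp 1 ^ 2 := by rw [← Real.exp_nat_mul]; norm_num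
    have h5 := Real.exp_one_lt_d9
    have h6 := Real.exp_pos 1
    rw [h4] at h3
    nlinarith
  have e2 : 1 / 7.4 ≤ Real.exp (2 * t) := by
    have h3 : Real.exp (-2) ≤ Real.exp (2 * t) := Real.exp_le_exp.2 (by linarith)
    have h4 : Real.exp 2 = Real.exp 1 ^ 2 := by rw [← Real.exp_nat_mul]; norm_num
    have h5 := Real.exp_one_lt_d9
    have h6 := Real.exp_pos 1
    have h7 : Real.exp 2 ≤ 7.4 := by rw [h4]; nlinarith
    have h8 : 1 / 7.4 ≤ Real.exp (-2) := by
      rw [Real.exp_neg, ← one_div]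
      exact one_div_le_one_div_of_le (Real.exp_pos _) h7
    linarith
  rw [div_le_div_iff₀ (by norm_num) (by positivity)]
  norm_num at e2
  nlinarith

/-- the density is at least `1/5 |∇u|²` where `|u - b| ≤ 1` -/
theorem le_HH (hL : ContDiff ℝ 2 L) (hg : Differentiable ℂ g) {b : ℝ} {z : ℂ} (h : g z ≠ 0) (h1 : b - 1 ≤ uu L g d z)
    (h2 : uu L g d z ≤ b + 1) : 1 / 5 * gg (uu L g d) (uu L g d) z ≤ HH L g d b z := by
  rw [HH_eq hL hg b h]
  refine mul_le_mul_of_nonneg_right ?_ (gg_self_nonneg _ _)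
  have h3 := ky_kap (t := uu L g d z - b) (by linarith) (by linarith)
  have e : Real.exp (2 * uu L g d z) = Real.exp (2 * b) * Real.exp (2 * (uu L g d z - b)) := by
    rw [← Real.exp_add]; congr 1; ring
  rw [e]
  have hb := Real.exp_pos (2 * b)
  have e2 : 2 * Real.exp (2 * b) * (Real.exp (2 * b) * Real.exp (2 * (uu L g d z - b))) /
      (Real.exp (2 * b) * Real.exp (2 * (uu L g d z - b)) + Real.exp (2 * b)) ^ 2 =
      2 * Real.exp (2 * (uu L g d z - b)) / (Real.exp (2 * (uu L g d z - b)) + 1) ^ 2 := by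
    have : Real.exp (2 * (uu L g d z - b)) + 1 ≠ 0 := by positivity
    have e3 : Real.exp (2 * b) * Real.exp (2 * (uu L g d z - b)) + Real.exp (2 * b) =
      Real.exp (2 * b) * (Real.exp (2 * (uu L g d z - b)) + 1) := by ring
    rw [e3]
    field_simp
  rw [e2]
  exact h3

theorem ky_const (b : ℝ) : Real.log (1 + Real.exp (2 * b)) / 2 - b ≤ 1 / 2 + |b| := by
  have hl2 : Real.log 2 ≤ 1 := by
    have := Real.log_two_lt_d9
    linarith
  rcases le_total b 0 with h | h
  · have h1 : Real.log (1 + Real.exp (2 * b)) ≤ Real.log 2 :=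
      Real.log_le_log (by positivity) (by
        have : Real.exp (2 * b) ≤ 1 := Real.exp_le_one_iff.2 (by linarith)
        linarith)
    rw [abs_of_nonpos h]
    linarith
  · have h1 : Real.log (1 + Real.exp (2 * b)) ≤ Real.log (2 * Real.exp (2 * b)) :=
      Real.log_le_log (by positivity) (by
        have : 1 ≤ Real.exp (2 * b) := Real.one_le_exp (by linarith)
        linarith)
    rw [Real.log_mul (by norm_num) (Real.exp_pos _).ne', Real.log_exp] at h1
    rw [abs_of_nonneg h]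
    linarith

/-- **The charge of a level region** -/
theorem charge (hL : ContDiff ℝ 2 L) (hL0 : ∀ z, 0 ≤ Δ L z) (hg : Differentiable ℂ g) (h0 : ∃ z, g z ≠ 0) (hd : 0 ≤ d)
    (hle : ∀ z, ‖g z‖ ≤ Real.exp (d * L z)) {a n : ℝ} {m : ℕ} (hn : 0 < n) {E : Set ℂ} {q : ℂ → ℝ}
    (hE : MeasurableSet E)
    (hq : ∀ z ∈ E, g z ≠ 0 ∧ a ≤ uu L g d z ∧ uu L g d z < a + 2 * m ∧ n ^ 2 * q z ^ 2 ≤ gg (uu L g d) (uu L g d) z)
    {R : ℝ} (hR : 1 ≤ R) :
    ∫ z in E, tau R z * q z ^ 2 ≤ 5 * m / n ^ 2 * (d * II L R + 2 * Real.pi * (|a| + 2 * m)) := by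
  have hH : ∀ k : ℕ, Integrable fun z => tau R z * HH L g d (a + 2 * k + 1) z := fun k =>
    integrable_tau_mul hR (continuous_HH hL hg _)
  have h1 : ∫ z in E, tau R z * q z ^ 2 ≤ ∫ z, ∑ k ∈ Finset.range m, 5 / n ^ 2 * (tau R z * HH L g d (a + 2 * k + 1) z) := by
    have hi : Integrable fun z => ∑ k ∈ Finset.range m, 5 / n ^ 2 * (tau R z * HH L g d (a + 2 * k + 1) z) :=
      integrable_finsetSum _ fun k _ => (hH k).const_mul _
    refine (integral_mono_of_nonneg ?_ hi.integrableOn ?_).trans (setIntegral_le_integral hi ?_)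
    · exact Eventually.of_forall fun z => mul_nonneg (tau_nonneg hR z) (sq_nonneg _)
    · rw [EventuallyLE, ae_restrict_iff' hE]
      refine Eventually.of_forall fun z hz => ?_
      obtain ⟨hz0, hz1, hz2, hz3⟩ := hq z hz
      have ht := tau_nonneg hR z
      set k := ⌊(uu L g d z - a) / 2⌋₊ with hk
      have hk1 : (k : ℝ) ≤ (uu L g d z - a) / 2 := Nat.floor_le (by linarith)
      have hk2 : (uu L g d z - a) / 2 < k + 1 := Nat.lt_floor_add_one _
      have hkm : k < m := by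
        have : (k : ℝ) < m := by linarith
        exact_mod_cast this
      have h2 := le_HH (b := a + 2 * k + 1) hL hg hz0 (by linarith) (by linarith)
      refine le_trans ?_ (Finset.single_le_sum (f := fun k : ℕ => 5 / n ^ 2 * (tau R z * HH L g d (a + 2 * k + 1) z))
        (fun j _ => mul_nonneg (by positivity) (mul_nonneg ht (HH_nonneg _ _ _ _ _))) (Finset.mem_range.2 hkm))
      have h3 : q z ^ 2 ≤ 5 / n ^ 2 * HH L g d (a + 2 * k + 1) z := by
        rw [div_mul_eq_mul_div, le_div_iff₀ (by positivity)]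
        linarith
      calc tau R z * q z ^ 2 ≤ tau R z * (5 / n ^ 2 * HH L g d (a + 2 * k + 1) z) := mul_le_mul_of_nonneg_left h3 ht
        _ = _ := by ring
    · exact Eventually.of_forall fun z => Finset.sum_nonneg fun k _ =>
        mul_nonneg (by positivity) (mul_nonneg (tau_nonneg hR z) (HH_nonneg _ _ _ _ _))
  refine h1.trans ?_
  rw [integral_finsetSum _ fun k _ => (hH k).const_mul _]
  have h2 : ∀ k ∈ Finset.range m, ∫ z, 5 / n ^ 2 * (tau R z * HH L g d (a + 2 * k + 1) z)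
      ≤ 5 / n ^ 2 * (d * II L R + 2 * Real.pi * (|a| + 2 * m)) := by
    intro k hk
    have hkm : (k : ℝ) + 1 ≤ m := by exact_mod_cast Finset.mem_range.1 hk
    have hk0 : (0 : ℝ) ≤ k := k.cast_nonneg
    rw [integral_const_mul]
    refine mul_le_mul_of_nonneg_left ((key hL hL0 hg h0 hd hle (a + 2 * k + 1) hR).trans ?_) (by positivity)
    have h3 := ky_const (a + 2 * k + 1)
    have h4 : |a + 2 * k + 1| ≤ |a| + (2 * k + 1) := by
      rw [add_assoc]
      refine (abs_add_le _ _).trans ?_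
      rw [abs_of_nonneg (by positivity : (0 : ℝ) ≤ 2 * k + 1)]
    have h5 : Real.log (1 + Real.exp (2 * (a + 2 * k + 1))) / 2 - (a + 2 * k + 1) ≤ |a| + 2 * m := by linarith
    have := Real.pi_pos
    nlinarith
  refine (Finset.sum_le_sum h2).trans (le_of_eq ?_)
  rw [Finset.sum_const, Finset.card_range, nsmul_eq_mul]
  ring

/-- `avg R L = I R + avg 1 L` -/
theorem avg_L {R : ℝ} (hR : 1 ≤ R) (hL : ContDiff ℝ 2 L) : avg R L = II L R + avg 1 L := by
  have := green_tau hR hL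
  unfold II
  linarith

theorem II_nonneg (hL0 : ∀ z, 0 ≤ Δ L z) {R : ℝ} (hR : 1 ≤ R) : 0 ≤ II L R :=
  integral_nonneg fun z => mul_nonneg (tau_nonneg hR z) (hL0 z)

theorem order_ne_top (hg : Differentiable ℂ g) (h0 : ∃ z, g z ≠ 0) (z : ℂ) : analyticOrderAt g z ≠ ⊤ := by
  have hA : AnalyticOnNhd ℂ g univ := fun z _ => hg.analyticAt z
  obtain ⟨w, hw⟩ := h0
  have hw' : analyticOrderAt g w ≠ ⊤ := by
    rw [(hg.analyticAt w).analyticOrderAt_eq_zero.2 hw]
    simp
  exact hA.analyticOrderAt_ne_top_of_isPreconnected isPreconnected_univ (mem_univ w) (mem_univ z) hw'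

/-- `u` has logarithmic singularities -/
theorem logSing_uu (hL : ContDiff ℝ 2 L) (hg : Differentiable ℂ g) (h0 : ∃ z, g z ≠ 0) (z : ℂ) :
    LogSing (uu L g d) (analyticOrderNatAt g z) z := by
  have h1 := LogSing.log_norm (hg.analyticAt z) (order_ne_top hg h0 z)
  have h2 : LogSing (fun z => d * L z) 0 z := LogSing.of_contDiffAt (contDiffAt_const.mul hL.contDiffAt)
  have h3 := h1.sub h2
  rw [sub_zero] at h3
  exact h3

theorem uu_nonpos_of_ne (hle : ∀ z, ‖g z‖ ≤ Real.exp (d * L z)) {z : ℂ} (h : g z ≠ 0) : uu L g d z ≤ 0 := by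
  have := Real.log_le_log (norm_pos_iff.2 h) (hle z)
  rw [Real.log_exp] at this
  unfold uu
  linarith

/-- `avg R u ≤ 0` -/
theorem avg_uu_nonpos (hg : Differentiable ℂ g) (h0 : ∃ z, g z ≠ 0)
    (hle : ∀ z, ‖g z‖ ≤ Real.exp (d * L z)) (R : ℝ) : avg R (uu L g d) ≤ 0 := by
  unfold avg
  refine integral_nonpos_of_ae ?_
  filter_upwards [ae_ne_zero hg h0] with z hz
  exact mul_nonpos_of_nonneg_of_nonpos (rhoR_nonneg R z) (uu_nonpos_of_ne hle hz)

/-- **First main theorem**: `2 π ∑ ord τ - avg R u ≤ d I - avg 1 u` (equality) -/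
theorem first_main (hL : ContDiff ℝ 2 L) (hg : Differentiable ℂ g) (h0 : ∃ z, g z ≠ 0) {R : ℝ} (hR : 1 ≤ R) :
    2 * Real.pi * ∑ᶠ z, (analyticOrderNatAt g z : ℝ) * tau R z = d * II L R + (avg R (uu L g d) - avg 1 (uu L g d)) := by
  have h1 := pl_tau hR hg h0
  have e : ∀ {r : ℝ}, 1 ≤ r → avg r (uu L g d) = avg r (fun z => Real.log ‖g z‖) - d * avg r L := by
    intro r hr
    unfold avg uu
    have i1 : Integrable fun z => rhoR r z * Real.log ‖g z‖ :=
      integrable_mul_log (continuous_rhoR r) (hcs_rhoR hr) (fun z _ => hg.analyticAt z) fun z _ => order_ne_top hg h0 z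
    have i2 : Integrable fun z => d * (rhoR r z * L z) := (integrable_rhoR_mul hr hL.continuous).const_mul d
    rw [← integral_const_mul, ← integral_sub i1 i2]
    refine integral_congr_ae (Eventually.of_forall fun z => ?_)
    simp only
    ring
  rw [e hR, e le_rfl, avg_L hR hL]
  linarith

/-- **Passes**: a finite set of points of order at least `N` -/
theorem pass (hL : ContDiff ℝ 2 L) (hg : Differentiable ℂ g) (h0 : ∃ z, g z ≠ 0)
    (hle : ∀ z, ‖g z‖ ≤ Real.exp (d * L z)) (N : ℕ) (A : Finset ℂ) {R : ℝ} (hR : 1 ≤ R)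
    (hA : ∀ z ∈ A, ‖z‖ ≤ Real.exp 1 * R → N ≤ analyticOrderNatAt g z) :
    2 * Real.pi * (N * ∑ z ∈ A, tau R z) ≤ d * II L R - avg 1 (uu L g d) := by
  have h1 := pl_count (contDiff_tau R) (hcs_tau hR) (tau_nonneg hR) (fun z _ => hg.analyticAt z)
    (fun z _ => order_ne_top hg h0 z) N A (fun z hz hz2 => hA z hz (by simpa using tsupport_tau hR hz2))
  rw [pl (contDiff_tau R) (hcs_tau hR) (fun z _ => hg.analyticAt z) (fun z _ => order_ne_top hg h0 z),
    first_main hL hg h0 hR (d := d)] at h1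
  have h2 := avg_uu_nonpos hg h0 hle R
  linarith

/-- the mean of `- u` (proximity): `- avg R u ≤ d I - avg 1 u` -/
theorem neg_avg_uu_le (hL : ContDiff ℝ 2 L) (hg : Differentiable ℂ g) (h0 : ∃ z, g z ≠ 0) {R : ℝ} (hR : 1 ≤ R) :
    - avg R (uu L g d) ≤ d * II L R - avg 1 (uu L g d) := by
  have h1 := first_main (d := d) hL hg h0 hR
  have h2 : 0 ≤ 2 * Real.pi * ∑ᶠ z, (analyticOrderNatAt g z : ℝ) * tau R z :=
    mul_nonneg (by positivity) (finsum_nonneg fun z => mul_nonneg (by positivity) (tau_nonneg hR z))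
  linarith

end

end Pool.Agent.H30M
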