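import Pool.Agent.H30M.Tau2

/-!
# Functions with logarithmic singularities

`LogSing w c z`: near `z` (outside `z`) the function `w` is `c log |ζ - z|` plus a `C²` function.
For a test function `τ` and `w` with logarithmic singularities on `tsupport τ`:
`- ∫ ∇τ ∇w = ∫ τ Δw + 2 π ∑ c τ` (`τ` of class `C¹`) and `∫ Δτ w` = the same (`τ` of class `C²`).
-/

set_option autoImplicit false

open MeasureTheory Complex Set Filter Topology Laplacian InnerProductSpace Metric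

namespace Pool.Agent.H30M

/-- logarithmic singularity with the coefficient `c` -/
def LogSing (w : ℂ → ℝ) (c : ℝ) (z : ℂ) : Prop :=
  ∃ s : ℂ → ℝ, ContDiffAt ℝ 2 s z ∧ w =ᶠ[𝓝[≠] z] fun ζ => c * Real.log ‖ζ - z‖ + s ζ

theorem LogSing.of_contDiffAt {w : ℂ → ℝ} {z : ℂ} (h : ContDiffAt ℝ 2 w z) : LogSing w 0 z :=
  ⟨w, h, Eventually.of_forall fun ζ => by simp⟩

theorem LogSing.congr {w w' : ℂ → ℝ} {c : ℝ} {z : ℂ} (h : LogSing w c z) (e : w' =ᶠ[𝓝[≠] z] w) : LogSing w' c z := by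
  obtain ⟨s, hs, h1⟩ := h
  exact ⟨s, hs, e.trans h1⟩

theorem LogSing.add {w w' : ℂ → ℝ} {c c' : ℝ} {z : ℂ} (h : LogSing w c z) (h' : LogSing w' c' z) :
    LogSing (fun ζ => w ζ + w' ζ) (c + c') z := by
  obtain ⟨s, hs, h1⟩ := h
  obtain ⟨s', hs', h1'⟩ := h'
  refine ⟨fun ζ => s ζ + s' ζ, hs.add hs', ?_⟩
  filter_upwards [h1, h1'] with ζ e e'
  rw [e, e']; ring

theorem LogSing.const_mul {w : ℂ → ℝ} {c : ℝ} {z : ℂ} (h : LogSing w c z) (t : ℝ) :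
    LogSing (fun ζ => t * w ζ) (t * c) z := by
  obtain ⟨s, hs, h1⟩ := h
  refine ⟨fun ζ => t * s ζ, contDiffAt_const.mul hs, ?_⟩
  filter_upwards [h1] with ζ e
  rw [e]; ring

theorem LogSing.neg {w : ℂ → ℝ} {c : ℝ} {z : ℂ} (h : LogSing w c z) : LogSing (fun ζ => - w ζ) (- c) z := by
  have := h.const_mul (-1)
  simpa using this

theorem LogSing.sub {w w' : ℂ → ℝ} {c c' : ℝ} {z : ℂ} (h : LogSing w c z) (h' : LogSing w' c' z) :
    LogSing (fun ζ => w ζ - w' ζ) (c - c') z := by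
  have := h.add h'.neg
  simpa [sub_eq_add_neg] using this

/-- `log |g|` for a meromorphic function -/
theorem LogSing.log_norm_mero {g : ℂ → ℂ} {z : ℂ} (hg : MeromorphicAt g z) (h0 : meromorphicOrderAt g z ≠ ⊤) :
    LogSing (fun ζ => Real.log ‖g ζ‖) ((meromorphicOrderAt g z).untop₀ : ℤ) z := by
  obtain ⟨h, hh, h1, h2⟩ := (meromorphicOrderAt_ne_top_iff hg).1 h0
  refine ⟨fun ζ => Real.log ‖h ζ‖, contDiffAt_log_norm hh h1, ?_⟩
  have h3 : ∀ᶠ ζ in 𝓝[≠] z, h ζ ≠ 0 := (hh.continuousAt.eventually_ne h1).filter_mono nhdsWithin_le_nhds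
  filter_upwards [h2, h3, self_mem_nhdsWithin] with ζ e hne hζ
  have hz : ‖ζ - z‖ ≠ 0 := norm_ne_zero_iff.2 (sub_ne_zero.2 hζ)
  rw [e, smul_eq_mul, norm_mul, norm_zpow, Real.log_mul (zpow_ne_zero _ hz) (norm_ne_zero_iff.2 hne), Real.log_zpow]

/-- `log |g|` for an analytic function -/
theorem LogSing.log_norm {g : ℂ → ℂ} {z : ℂ} (hg : AnalyticAt ℂ g z) (h0 : analyticOrderAt g z ≠ ⊤) :
    LogSing (fun ζ => Real.log ‖g ζ‖) (analyticOrderNatAt g z) z := by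
  obtain ⟨h, hh, h1, h2⟩ := hg.analyticOrderAt_ne_top.1 h0
  refine ⟨fun ζ => Real.log ‖h ζ‖, contDiffAt_log_norm hh h1, ?_⟩
  have h3 : ∀ᶠ ζ in 𝓝[≠] z, h ζ ≠ 0 := (hh.continuousAt.eventually_ne h1).filter_mono nhdsWithin_le_nhds
  filter_upwards [h2.filter_mono nhdsWithin_le_nhds, h3, self_mem_nhdsWithin] with ζ e hne hζ
  have hz : ‖ζ - z‖ ≠ 0 := norm_ne_zero_iff.2 (sub_ne_zero.2 hζ)
  rw [e, smul_eq_mul, norm_mul, norm_pow, Real.log_mul (pow_ne_zero _ hz) (norm_ne_zero_iff.2 hne), Real.log_pow]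

/-- outside `z` the function is `C²` near `z` -/
theorem LogSing.eventually {w : ℂ → ℝ} {c : ℝ} {z : ℂ} (h : LogSing w c z) : ∀ᶠ ζ in 𝓝[≠] z, ContDiffAt ℝ 2 w ζ := by
  obtain ⟨s, hs, h1⟩ := h
  have h2 : ∀ᶠ ζ in 𝓝[≠] z, ContDiffAt ℝ 2 s ζ := (hs.eventually (by simp)).filter_mono nhdsWithin_le_nhds
  have h3 : ∀ᶠ ζ in 𝓝[≠] z, w =ᶠ[𝓝 ζ] fun ζ => c * Real.log ‖ζ - z‖ + s ζ := by
    have := eventually_nhdsWithin_iff.1 h1
    have h4 := this.eventually_nhds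
    rw [eventually_nhdsWithin_iff]
    filter_upwards [h4] with ζ hζ hne
    filter_upwards [hζ, isOpen_ne.mem_nhds hne] with x hx hx'
    exact hx hx'
  filter_upwards [h2, h3, self_mem_nhdsWithin] with ζ hs2 he hne
  refine ContDiffAt.congr_of_eventuallyEq ?_ he
  have hl : ContDiffAt ℝ 2 (fun ζ : ℂ => Real.log ‖ζ - z‖) ζ :=
    contDiffAt_log_norm (h := fun ζ => ζ - z) (by fun_prop) (sub_ne_zero.2 hne)
  exact (contDiffAt_const.mul hl).add hs2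

/-- **Decomposition on a compact set** -/
theorem logSing_decomp {K : Set ℂ} (hK : IsCompact K) {w : ℂ → ℝ} {c : ℂ → ℝ} (hw : ∀ z ∈ K, LogSing w (c z) z) :
    ∃ (S : Finset ℂ) (w₂ : ℂ → ℝ), (∀ a ∈ S, a ∈ K) ∧ (∀ z ∈ K, ContDiffAt ℝ 2 w₂ z) ∧ (∀ z ∈ K, z ∉ S → ContDiffAt ℝ 2 w z) ∧
      ∀ ζ, ζ ∉ S → w ζ = ∑ a ∈ S, c a * Real.log ‖ζ - a‖ + w₂ ζ := by
  classical
  set B : Set ℂ := {z ∈ K | ¬ ContDiffAt ℝ 2 w z} with hB
  have hfin : B.Finite := by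
    by_contra hinf
    have hinf' : B.Infinite := hinf
    obtain ⟨z, hz, hacc⟩ := hinf'.exists_accPt_of_subset_isCompact hK (fun z hz => hz.1)
    have h1 := (hw z hz).eventually
    rw [accPt_iff_frequently_nhdsNE] at hacc
    exact hacc (h1.mono fun ζ hζ hB' => hB'.2 hζ)
  set S := hfin.toFinset with hS
  have hmem : ∀ a, a ∈ S ↔ a ∈ K ∧ ¬ ContDiffAt ℝ 2 w a := fun a => by rw [hS, Set.Finite.mem_toFinset, hB]; rfl
  choose! s hs using hw
  set w₂ : ℂ → ℝ := fun ζ => if ζ ∈ S then s ζ ζ - ∑ a ∈ S.erase ζ, c a * Real.log ‖ζ - a‖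
    else w ζ - ∑ a ∈ S, c a * Real.log ‖ζ - a‖ with hw2
  have hlog : ∀ a z : ℂ, z ≠ a → ContDiffAt ℝ 2 (fun ζ : ℂ => c a * Real.log ‖ζ - a‖) z := fun a z hne =>
    contDiffAt_const.mul (contDiffAt_log_norm (h := fun ζ => ζ - a) (by fun_prop) (sub_ne_zero.2 hne))
  have hout : ∀ z ∉ S, w₂ =ᶠ[𝓝 z] fun ζ => w ζ - ∑ a ∈ S, c a * Real.log ‖ζ - a‖ := by
    intro z hz
    have : (S : Set ℂ)ᶜ ∈ 𝓝 z := S.finite_toSet.isClosed.isOpen_compl.mem_nhds (by simpa using hz)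
    filter_upwards [this] with ζ hζ
    have hζ' : ζ ∉ S := by simpa using hζ
    simp [hw2, hζ']
  have hin : ∀ z ∈ S, w₂ =ᶠ[𝓝 z] fun ζ => s z ζ - ∑ a ∈ S.erase z, c a * Real.log ‖ζ - a‖ := by
    intro z hz
    have hzK : z ∈ K := ((hmem z).1 hz).1
    have h1 := eventually_nhdsWithin_iff.1 (hs z hzK).2
    have h2 : ((S.erase z : Finset ℂ) : Set ℂ)ᶜ ∈ 𝓝 z :=
      (S.erase z).finite_toSet.isClosed.isOpen_compl.mem_nhds (by simp)
    filter_upwards [h1, h2] with ζ hζ hζ2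
    rcases eq_or_ne ζ z with rfl | hne
    · simp [hw2, hz]
    · have hζS : ζ ∉ S := by
        intro h
        apply hζ2
        simp [hne, h]
      simp only [hw2, hζS, if_false]
      rw [hζ hne, ← Finset.add_sum_erase S (fun a => c a * Real.log ‖ζ - a‖) hz]
      ring
  refine ⟨S, w₂, fun a ha => ((hmem a).1 ha).1, ?_, ?_, ?_⟩
  · intro z hzK
    by_cases hzS : z ∈ S
    · refine ContDiffAt.congr_of_eventuallyEq ?_ (hin z hzS)
      refine (hs z hzK).1.sub (ContDiffAt.sum fun a ha => hlog a z ?_)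
      exact (Finset.ne_of_mem_erase ha).symm
    · refine ContDiffAt.congr_of_eventuallyEq ?_ (hout z hzS)
      have hc : ContDiffAt ℝ 2 w z := by
        by_contra h
        exact hzS ((hmem z).2 ⟨hzK, h⟩)
      refine hc.sub (ContDiffAt.sum fun a ha => hlog a z ?_)
      rintro rfl
      exact hzS ha
  · intro z hzK hzS
    by_contra h
    exact hzS ((hmem z).2 ⟨hzK, h⟩)
  · intro ζ hζ
    simp [hw2, hζ]

end Pool.Agent.H30M
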