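import Pool.Agent.H30M.Fund

/-!
# Poincare-Lelong for test functions: `∫ Δτ log |g| = 2 π ∑ ord_z(g) τ(z)`
-/

set_option autoImplicit false

open MeasureTheory Complex Set Filter Topology Laplacian InnerProductSpace Metric

namespace Pool.Agent.H30M

/-- The decomposition of `log ‖g‖` on a compact set. -/
theorem log_decomp {K : Set ℂ} (hK : IsCompact K) {g : ℂ → ℂ} (hg : AnalyticOnNhd ℂ g K)
    (h0 : ∀ z ∈ K, analyticOrderAt g z ≠ ⊤) :
    ∃ (S : Finset ℂ) (h : ℂ → ℂ), (∀ u ∈ S, u ∈ K) ∧ (∀ u ∈ K, u ∉ S → analyticOrderNatAt g u = 0) ∧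
      AnalyticOnNhd ℂ h K ∧ (∀ z ∈ K, h z ≠ 0) ∧
      ∀ᵐ z : ℂ, z ∈ K → Real.log ‖g z‖ = ∑ u ∈ S, (analyticOrderNatAt g u : ℝ) * Real.log ‖z - u‖ + Real.log ‖h z‖ := by
  classical
  have hm : MeromorphicOn g K := fun z hz => (hg z hz).meromorphicAt
  have hfin : (MeromorphicOn.divisor g K).support.Finite :=
    (MeromorphicOn.divisor g K).finiteSupport hK
  have hord : ∀ z ∈ K, meromorphicOrderAt g z = (analyticOrderAt g z).map (↑) := fun z hz =>
    (hg z hz).meromorphicOrderAt_eq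
  have h1 : ∀ u : K, meromorphicOrderAt g u ≠ ⊤ := by
    intro u
    rw [hord u u.2]
    simpa using h0 u u.2
  obtain ⟨h, hh1, hh2, hh3⟩ := hm.extract_zeros_poles h1 hfin
  have hlog := MeromorphicOn.extract_zeros_poles_log hh2 hh3
  have hD : ∀ u ∈ K, MeromorphicOn.divisor g K u = (analyticOrderNatAt g u : ℤ) := by
    intro u hu
    rw [MeromorphicOn.divisor_apply hm hu, hord u hu, ← Nat.cast_analyticOrderNatAt (h0 u hu)]
    rfl
  refine ⟨hfin.toFinset, h, ?_, ?_, hh1, fun z hz => hh2 ⟨z, hz⟩, ?_⟩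
  · intro u hu
    rw [Set.Finite.mem_toFinset] at hu
    exact (MeromorphicOn.divisor g K).supportWithinDomain hu
  · intro u hu hn
    rw [Set.Finite.mem_toFinset, Function.mem_support, not_not, hD u hu] at hn
    exact_mod_cast hn
  · have h2 := ae_restrict_le_codiscreteWithin (μ := (volume : Measure ℂ)) hK.measurableSet hlog
    have h3 : ∀ᵐ z ∂(volume.restrict K), Real.log ‖g z‖
        = (∑ᶠ u, (fun z => (MeromorphicOn.divisor g K u : ℝ) * Real.log ‖z - u‖) + fun z => Real.log ‖h z‖) z := h2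
    rw [ae_restrict_iff' hK.measurableSet] at h3
    filter_upwards [h3] with z hz hzK
    rw [hz hzK, Pi.add_apply]
    congr 1
    have hs : (fun u => fun z : ℂ => (MeromorphicOn.divisor g K u : ℝ) * Real.log ‖z - u‖).support ⊆ hfin.toFinset := by
      intro u hu
      simp only [Set.Finite.coe_toFinset, Function.mem_support]
      intro h
      apply hu
      funext z
      simp [h]
    rw [finsum_eq_sum_of_support_subset _ hs, Finset.sum_apply]
    refine Finset.sum_congr rfl fun u hu => ?_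
    rw [Set.Finite.mem_toFinset] at hu
    rw [hD u ((MeromorphicOn.divisor g K).supportWithinDomain hu)]
    simp

theorem contDiffAt_log_norm {h : ℂ → ℂ} {z : ℂ} (hh : AnalyticAt ℂ h z) (h0 : h z ≠ 0) :
    ContDiffAt ℝ 2 (fun w => Real.log ‖h w‖) z := (hh.harmonicAt_log_norm h0).1

theorem lap_log_norm {h : ℂ → ℂ} {z : ℂ} (hh : AnalyticAt ℂ h z) (h0 : h z ≠ 0) :
    Δ (fun w => Real.log ‖h w‖) z = 0 := (hh.harmonicAt_log_norm h0).2.eq_of_nhds

theorem continuous_lap {τ : ℂ → ℝ} (hτ : ContDiff ℝ 2 τ) : Continuous (Δ τ) := by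
  have e : Δ τ = fun z => fderiv ℝ (fun w => fderiv ℝ τ w 1) z 1 + fderiv ℝ (fun w => fderiv ℝ τ w I) z I :=
    funext fun z => lap_eq hτ.contDiffAt
  rw [e]
  have hd : ∀ v : ℂ, ContDiff ℝ 1 fun z => fderiv ℝ τ z v := fun v =>
    (hτ.fderiv_right (m := 1) (by norm_num)).clm_apply contDiff_const
  exact (((hd 1).continuous_fderiv (by norm_num)).clm_apply continuous_const).add
    (((hd I).continuous_fderiv (by norm_num)).clm_apply continuous_const)

/-- `φ log ‖g‖` is integrable. -/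
theorem integrable_mul_log {φ : ℂ → ℝ} (hφ : Continuous φ) (hc : HasCompactSupport φ) {g : ℂ → ℂ}
    (hg : AnalyticOnNhd ℂ g (tsupport φ)) (h0 : ∀ z ∈ tsupport φ, analyticOrderAt g z ≠ ⊤) :
    Integrable fun z => φ z * Real.log ‖g z‖ := by
  obtain ⟨S, h, -, -, hh1, hh2, hae⟩ := log_decomp hc hg h0
  have h1 : Integrable fun z => ∑ u ∈ S, (analyticOrderNatAt g u : ℝ) * (φ z * Real.log ‖z - u‖) +
      φ z * Real.log ‖h z‖ := by
    refine Integrable.add (integrable_finsetSum _ fun u _ => Integrable.const_mul ?_ _) ?_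
    · exact (locInt_log u).integrable_smul_left_of_hasCompactSupport hφ hc
    · have hs : tsupport (fun z => φ z * Real.log ‖h z‖) ⊆ tsupport φ :=
        tsupport_mul_subset_left (f := φ) (g := fun z => Real.log ‖h z‖)
      exact integrable_of_ts (fun z hz => hφ.continuousAt.mul
        (contDiffAt_log_norm (hh1 z (hs hz)) (hh2 z (hs hz))).continuousAt) (hcs_of_sub hc hs)
  refine h1.congr ?_
  filter_upwards [hae] with z hz
  by_cases hzK : z ∈ tsupport φ
  · rw [hz hzK, mul_add, Finset.mul_sum]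
    congr 1
    refine Finset.sum_congr rfl fun u _ => ?_
    ring
  · simp [image_eq_zero_of_notMem_tsupport hzK]

/-- **Poincare-Lelong for test functions** -/
theorem pl {τ : ℂ → ℝ} (hτ : ContDiff ℝ 2 τ) (hc : HasCompactSupport τ) {g : ℂ → ℂ}
    (hg : AnalyticOnNhd ℂ g (tsupport τ)) (h0 : ∀ z ∈ tsupport τ, analyticOrderAt g z ≠ ⊤) :
    ∫ z, Δ τ z * Real.log ‖g z‖ = 2 * Real.pi * ∑ᶠ z, (analyticOrderNatAt g z : ℝ) * τ z := by
  obtain ⟨S, h, hS1, hS2, hh1, hh2, hae⟩ := log_decomp hc hg h0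
  have hL := continuous_lap hτ
  have hcL := hcs_of_sub hc (ts_lap τ)
  have e1 : ∀ᵐ z : ℂ, Δ τ z * Real.log ‖g z‖ = ∑ u ∈ S, (analyticOrderNatAt g u : ℝ) * (Δ τ z * Real.log ‖z - u‖) +
      Δ τ z * Real.log ‖h z‖ := by
    filter_upwards [hae] with z hz
    by_cases hzK : z ∈ tsupport τ
    · rw [hz hzK, mul_add, Finset.mul_sum]
      congr 1
      refine Finset.sum_congr rfl fun u _ => ?_
      ring
    · simp [lap_of_not_ts hzK]
  have i1 : ∀ u : ℂ, Integrable fun z => Δ τ z * Real.log ‖z - u‖ := fun u =>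
    (locInt_log u).integrable_smul_left_of_hasCompactSupport hL hcL
  have i2 : Integrable fun z => Δ τ z * Real.log ‖h z‖ := by
    have hs : tsupport (fun z => Δ τ z * Real.log ‖h z‖) ⊆ tsupport τ :=
      (tsupport_mul_subset_left (f := Δ τ) (g := fun z => Real.log ‖h z‖)).trans (ts_lap τ)
    exact integrable_of_ts (fun z hz => hL.continuousAt.mul
      (contDiffAt_log_norm (hh1 z (hs hz)) (hh2 z (hs hz))).continuousAt) (hcs_of_sub hc hs)
  have e2 : ∫ z, Δ τ z * Real.log ‖h z‖ = 0 := by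
    rw [← green2 hτ hc (fun z hz => contDiffAt_log_norm (hh1 z hz) (hh2 z hz))]
    rw [← integral_zero ℂ ℝ]
    refine integral_congr_ae (Eventually.of_forall fun z => ?_)
    by_cases hzK : z ∈ tsupport τ
    · simp only [lap_log_norm (hh1 z hzK) (hh2 z hzK), mul_zero]
    · simp only [image_eq_zero_of_notMem_tsupport hzK, zero_mul]
  rw [integral_congr_ae e1, integral_add (integrable_finsetSum _ fun u _ => (i1 u).const_mul _) i2, e2, add_zero,
    integral_finsetSum _ fun u _ => (i1 u).const_mul _]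
  rw [finsum_eq_sum_of_support_subset (s := S), Finset.mul_sum]
  · refine Finset.sum_congr rfl fun u _ => ?_
    rw [integral_const_mul, fund hτ hc]
    ring
  · intro u hu
    by_contra hn
    apply hu
    simp only
    by_cases huK : u ∈ tsupport τ
    · rw [hS2 u huK hn]; simp
    · rw [image_eq_zero_of_notMem_tsupport huK]; simp

/-- The finite support of the sum in `pl`. -/
theorem pl_finite {τ : ℂ → ℝ} (hc : HasCompactSupport τ) {g : ℂ → ℂ}
    (hg : AnalyticOnNhd ℂ g (tsupport τ)) (h0 : ∀ z ∈ tsupport τ, analyticOrderAt g z ≠ ⊤) :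
    (Function.support fun z => (analyticOrderNatAt g z : ℝ) * τ z).Finite := by
  obtain ⟨S, h, hS1, hS2, -, -, -⟩ := log_decomp hc hg h0
  refine S.finite_toSet.subset fun u hu => ?_
  by_contra hn
  apply hu
  simp only
  by_cases huK : u ∈ tsupport τ
  · rw [hS2 u huK hn]; simp
  · rw [image_eq_zero_of_notMem_tsupport huK]; simp

theorem pl_nonneg {τ : ℂ → ℝ} (hτ : ContDiff ℝ 2 τ) (hc : HasCompactSupport τ) (hp : ∀ z, 0 ≤ τ z) {g : ℂ → ℂ}
    (hg : AnalyticOnNhd ℂ g (tsupport τ)) (h0 : ∀ z ∈ tsupport τ, analyticOrderAt g z ≠ ⊤) :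
    0 ≤ ∫ z, Δ τ z * Real.log ‖g z‖ := by
  rw [pl hτ hc hg h0]
  exact mul_nonneg (by positivity) (finsum_nonneg fun z => mul_nonneg (by positivity) (hp z))

/-- **Counting**: points where `g` vanishes to order at least `N`. -/
theorem pl_count {τ : ℂ → ℝ} (hτ : ContDiff ℝ 2 τ) (hc : HasCompactSupport τ) (hp : ∀ z, 0 ≤ τ z) {g : ℂ → ℂ}
    (hg : AnalyticOnNhd ℂ g (tsupport τ)) (h0 : ∀ z ∈ tsupport τ, analyticOrderAt g z ≠ ⊤) (N : ℕ) (A : Finset ℂ)
    (hA : ∀ z ∈ A, z ∈ tsupport τ → N ≤ analyticOrderNatAt g z) :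
    2 * Real.pi * (N * ∑ z ∈ A, τ z) ≤ ∫ z, Δ τ z * Real.log ‖g z‖ := by
  classical
  rw [pl hτ hc hg h0]
  refine mul_le_mul_of_nonneg_left ?_ (by positivity)
  have hfin := pl_finite hc hg h0
  rw [finsum_eq_sum_of_support_subset (s := hfin.toFinset ∪ A) _ (by
    intro z hz
    simp only [Finset.coe_union, Set.Finite.coe_toFinset]
    exact Or.inl hz), Finset.mul_sum]
  refine le_trans (Finset.sum_le_sum fun z hz => ?_) (Finset.sum_le_sum_of_subset_of_nonneg
    (Finset.subset_union_right (s₁ := hfin.toFinset)) fun z _ _ => mul_nonneg (by positivity) (hp z))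
  by_cases hzK : z ∈ tsupport τ
  · exact mul_le_mul_of_nonneg_right (by exact_mod_cast hA z hz hzK) (hp z)
  · rw [image_eq_zero_of_notMem_tsupport hzK]; simp

end Pool.Agent.H30M
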