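import Pool.Agent.H30M.Green

/-!
# The Laplacian of `1/2 log (|g|^2 + ε^2)`
-/

set_option autoImplicit false

open MeasureTheory Complex Set Filter Topology Laplacian InnerProductSpace

namespace Pool.Agent.H30M

theorem fderiv_eq_line {u : ℂ → ℝ} {w v : ℂ} (hu : DifferentiableAt ℝ u w) {d : ℝ}
    (h : HasDerivAt (fun t : ℝ => u (w + t • v)) d 0) : fderiv ℝ u w v = d :=
  (hu.hasFDerivAt.hasLineDerivAt v).unique h

/-- the regularised logarithm -/
noncomputable def rl (ε : ℝ) (g : ℂ → ℂ) (z : ℂ) : ℝ := Real.log (‖g z‖ ^ 2 + ε ^ 2) / 2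

private theorem rg_line {g : ℂ → ℂ} {w : ℂ} (hg : DifferentiableAt ℂ g w) (v : ℂ) :
    HasDerivAt (fun t : ℝ => g (w + t • v)) (deriv g w * v) 0 := by
  have h1 : HasFDerivAt g ((ContinuousLinearMap.toSpanSingleton ℂ (deriv g w)).restrictScalars ℝ) w :=
    hg.hasDerivAt.hasFDerivAt.restrictScalars ℝ
  have h2 := h1.hasLineDerivAt v
  have h3 : HasDerivAt (fun t : ℝ => g (w + t • v)) _ 0 := h2
  convert h3 using 1
  simp [mul_comm]

private theorem rg_re {g : ℂ → ℂ} {w : ℂ} (hg : DifferentiableAt ℂ g w) (v : ℂ) :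
    HasDerivAt (fun t : ℝ => (g (w + t • v)).re) (deriv g w * v).re 0 :=
  (reCLM.hasFDerivAt.comp_hasDerivAt (0 : ℝ) (rg_line hg v))

private theorem rg_im {g : ℂ → ℂ} {w : ℂ} (hg : DifferentiableAt ℂ g w) (v : ℂ) :
    HasDerivAt (fun t : ℝ => (g (w + t • v)).im) (deriv g w * v).im 0 :=
  (imCLM.hasFDerivAt.comp_hasDerivAt (0 : ℝ) (rg_line hg v))

theorem contDiffAt_rl {ε : ℝ} (hε : 0 < ε) {g : ℂ → ℂ} {z : ℂ} (hg : AnalyticAt ℂ g z) :
    ContDiffAt ℝ 2 (rl ε g) z := by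
  have h1 : ContDiffAt ℝ 2 g z := (hg.contDiffAt (n := 2)).restrict_scalars ℝ
  have h2 : ContDiffAt ℝ 2 (fun z => ‖g z‖ ^ 2 + ε ^ 2) z := (h1.norm_sq ℝ).add contDiffAt_const
  exact (h2.log (by positivity)).div_const 2

/-- first derivatives -/
theorem fderiv_rl {ε : ℝ} (hε : 0 < ε) {g : ℂ → ℂ} {w : ℂ} (hg : AnalyticAt ℂ g w) (v : ℂ) :
    fderiv ℝ (rl ε g) w v = ((g w).re * (deriv g w * v).re + (g w).im * (deriv g w * v).im)
      / ((g w).re ^ 2 + (g w).im ^ 2 + ε ^ 2) := by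
  have hd := hg.differentiableAt
  apply fderiv_eq_line ((contDiffAt_rl hε hg).differentiableAt (by norm_num))
  have h1 := rg_re hd v
  have h2 := rg_im hd v
  have h3 := ((h1.pow 2).add (h2.pow 2)).add_const (ε ^ 2)
  have h4 := (h3.log (by simp only [Pi.pow_apply, Pi.add_apply]; positivity)).div_const 2
  have e : (fun t : ℝ => rl ε g (w + t • v)) = fun t : ℝ => Real.log (((((fun t : ℝ => (g (w + t • v)).re) ^ 2) +
      ((fun t : ℝ => (g (w + t • v)).im) ^ 2)) t) + ε ^ 2) / 2 := by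
    funext t
    simp only [rl, Pi.add_apply, Pi.pow_apply]
    rw [← Complex.normSq_eq_norm_sq, Complex.normSq_apply]
    ring_nf
  rw [e]
  refine h4.congr_deriv ?_
  simp only [Pi.pow_apply, Pi.add_apply, zero_smul, add_zero]
  have : (g w).re ^ 2 + (g w).im ^ 2 + ε ^ 2 ≠ 0 := by positivity
  field_simp
  ring

/-- **The Laplacian** -/
theorem lap_rl {ε : ℝ} (hε : 0 < ε) {g : ℂ → ℂ} {z : ℂ} (hg : AnalyticAt ℂ g z) :
    Δ (rl ε g) z = 2 * ε ^ 2 * ‖deriv g z‖ ^ 2 / (‖g z‖ ^ 2 + ε ^ 2) ^ 2 := by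
  rw [lap_eq (contDiffAt_rl hε hg)]
  have hev : ∀ v : ℂ, (fun w => fderiv ℝ (rl ε g) w v) =ᶠ[𝓝 z] fun w =>
      ((g w).re * (deriv g w * v).re + (g w).im * (deriv g w * v).im)
      / ((g w).re ^ 2 + (g w).im ^ 2 + ε ^ 2) := fun v => by
    filter_upwards [hg.eventually_analyticAt] with w hw
    exact fderiv_rl hε hw v
  have hd := hg.differentiableAt
  have hd' := hg.deriv.differentiableAt
  have key : ∀ v : ℂ, fderiv ℝ (fun w => fderiv ℝ (rl ε g) w v) z v =
      (((deriv g z * v).re * (deriv g z * v).re + (g z).re * (deriv (deriv g) z * v * v).re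
        + ((deriv g z * v).im * (deriv g z * v).im + (g z).im * (deriv (deriv g) z * v * v).im))
        * ((g z).re ^ 2 + (g z).im ^ 2 + ε ^ 2)
        - ((g z).re * (deriv g z * v).re + (g z).im * (deriv g z * v).im)
        * (2 * (g z).re * (deriv g z * v).re + 2 * (g z).im * (deriv g z * v).im))
      / ((g z).re ^ 2 + (g z).im ^ 2 + ε ^ 2) ^ 2 := by
    intro v
    apply fderiv_eq_line ((contDiffAt_d (contDiffAt_rl hε hg) v).differentiableAt (by norm_num))
    have e : (fun t : ℝ => fderiv ℝ (rl ε g) (z + t • v) v) =ᶠ[𝓝 0] fun t : ℝ =>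
      ((g (z + t • v)).re * (deriv g (z + t • v) * v).re + (g (z + t • v)).im * (deriv g (z + t • v) * v).im)
      / ((g (z + t • v)).re ^ 2 + (g (z + t • v)).im ^ 2 + ε ^ 2) := by
      have hc : Tendsto (fun t : ℝ => z + t • v) (𝓝 0) (𝓝 z) := by
        have : Continuous fun t : ℝ => z + t • v := by fun_prop
        simpa using this.tendsto 0
      exact hc.eventually (hev v)
    have h1 := rg_re hd v
    have h2 := rg_im hd v
    have h3 : HasDerivAt (fun t : ℝ => (deriv g (z + t • v) * v).re) (deriv (deriv g) z * v * v).re 0 := by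
      have := (rg_line hd' v).mul_const v
      exact (reCLM.hasFDerivAt.comp_hasDerivAt (0 : ℝ) this)
    have h4 : HasDerivAt (fun t : ℝ => (deriv g (z + t • v) * v).im) (deriv (deriv g) z * v * v).im 0 := by
      have := (rg_line hd' v).mul_const v
      exact (imCLM.hasFDerivAt.comp_hasDerivAt (0 : ℝ) this)
    have h5 := ((h1.mul h3).add (h2.mul h4)).div (((h1.pow 2).add (h2.pow 2)).add_const (ε ^ 2))
      (by simp only [Pi.pow_apply, Pi.add_apply]; positivity)
    refine HasDerivAt.congr_of_eventuallyEq (h5.congr_deriv ?_) e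
    simp only [Pi.pow_apply, Pi.add_apply, Pi.mul_apply, zero_smul, add_zero]
    push_cast
    ring
  rw [key, key]
  have hN : (g z).re ^ 2 + (g z).im ^ 2 + ε ^ 2 ≠ 0 := by positivity
  rw [← Complex.normSq_eq_norm_sq, ← Complex.normSq_eq_norm_sq, Complex.normSq_apply, Complex.normSq_apply]
  have hN2 : (g z).re * (g z).re + (g z).im * (g z).im + ε ^ 2 = (g z).re ^ 2 + (g z).im ^ 2 + ε ^ 2 := by ring
  rw [hN2, ← add_div]
  congr 1
  simp only [mul_re, mul_im, I_re, I_im, one_re, one_im]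
  ring

end Pool.Agent.H30M
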