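import Pool.Agent.H30M.Calc
import Pool.Agent.H30M.PL

/-!
# The test functions `tau R z = log R - P z + P (z / R)`

`P z = Th (log ‖z‖)`, `Th' = θ` a smooth transition from `0` to `1` on `[0, 1]`.
-/

set_option autoImplicit false

open MeasureTheory Complex Set Filter Topology Laplacian InnerProductSpace Metric

namespace Pool.Agent.H30M

/-- `Th s = ∫ θ` over `[0, s]` -/
noncomputable def Th (s : ℝ) : ℝ := ∫ t in (0)..s, Real.smoothTransition t

theorem hasDerivAt_Th (s : ℝ) : HasDerivAt Th (Real.smoothTransition s) s :=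
  intervalIntegral.integral_hasDerivAt_right (Real.smoothTransition.continuous.intervalIntegrable _ _)
    Real.smoothTransition.continuous.aestronglyMeasurable.stronglyMeasurableAtFilter
    Real.smoothTransition.continuous.continuousAt

theorem deriv_Th : deriv Th = Real.smoothTransition := funext fun s => (hasDerivAt_Th s).deriv

theorem contDiff_Th : ContDiff ℝ 2 Th := by
  have h : ContDiff ℝ (1 + 1) Th := by
    rw [contDiff_succ_iff_deriv]
    refine ⟨fun s => (hasDerivAt_Th s).differentiableAt, by simp, ?_⟩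
    rw [deriv_Th]
    exact Real.smoothTransition.contDiff (n := 1)
  exact h.of_le (by norm_num [one_add_one_eq_two])

theorem Th_nonpos {s : ℝ} (hs : s ≤ 0) : Th s = 0 := by
  unfold Th
  rw [intervalIntegral.integral_congr (g := fun _ => (0 : ℝ)), intervalIntegral.integral_zero]
  intro t ht
  rw [uIcc_of_ge hs] at ht
  exact Real.smoothTransition.zero_of_nonpos ht.2

theorem Th_mono : Monotone Th := monotone_of_deriv_nonneg (fun s => (hasDerivAt_Th s).differentiableAt)
  fun s => by rw [deriv_Th]; exact Real.smoothTransition.nonneg s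

theorem Th_nonneg (s : ℝ) : 0 ≤ Th s := by
  rcases le_total s 0 with h | h
  · rw [Th_nonpos h]
  · rw [← Th_nonpos (le_refl 0)]; exact Th_mono h

/-- `Th s - Th t ≤ s - t` for `t ≤ s` -/
theorem Th_sub_le {s t : ℝ} (h : t ≤ s) : Th s - Th t ≤ s - t := by
  have hm : Monotone fun s => s - Th s := monotone_of_deriv_nonneg
    (fun s => (differentiableAt_id.sub (hasDerivAt_Th s).differentiableAt)) fun s => by
      have := (hasDerivAt_id s).sub (hasDerivAt_Th s)
      have h2 : deriv (fun s => s - Th s) s = 1 - Real.smoothTransition s := this.deriv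
      rw [h2]
      have := Real.smoothTransition.le_one s
      linarith
  have := hm h
  simp only at this
  linarith

theorem Th_le {s : ℝ} (h : 0 ≤ s) : Th s ≤ s := by
  have := Th_sub_le h
  rw [Th_nonpos (le_refl 0)] at this
  linarith

/-- `Th s - Th t = s - t` for `1 ≤ t ≤ s` -/
theorem Th_sub_eq {s t : ℝ} (h1 : 1 ≤ t) (h : t ≤ s) : Th s - Th t = s - t := by
  unfold Th
  have hi : ∀ a b : ℝ, IntervalIntegrable Real.smoothTransition volume a b := fun a b =>
    Real.smoothTransition.continuous.intervalIntegrable a b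
  rw [intervalIntegral.integral_interval_sub_left (hi 0 s) (hi 0 t)]
  rw [intervalIntegral.integral_congr (g := fun _ => (1 : ℝ)), intervalIntegral.integral_const]
  · simp
  · intro x hx
    rw [uIcc_of_le h] at hx
    exact Real.smoothTransition.one_of_one_le (h1.trans hx.1)

/-- the potential -/
noncomputable def P (z : ℂ) : ℝ := Th (Real.log ‖z‖)

theorem P_eq_zero {z : ℂ} (h : ‖z‖ ≤ 1) : P z = 0 := Th_nonpos (Real.log_nonpos (norm_nonneg z) h)

theorem P_nonneg (z : ℂ) : 0 ≤ P z := Th_nonneg _

theorem P_ev_zero {z : ℂ} (h : ‖z‖ < 1) : P =ᶠ[𝓝 z] fun _ => 0 := by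
  filter_upwards [(isOpen_lt continuous_norm continuous_const).mem_nhds h] with w hw
  exact P_eq_zero (le_of_lt hw)

theorem contDiff_P : ContDiff ℝ 2 P := by
  rw [contDiff_iff_contDiffAt]
  intro z
  rcases eq_or_ne z 0 with rfl | hz
  · exact (contDiffAt_const (c := (0 : ℝ))).congr_of_eventuallyEq (P_ev_zero (by simp))
  · have h1 : ContDiffAt ℝ 2 (fun w : ℂ => Real.log ‖w‖) z := contDiffAt_log_norm (h := id) analyticAt_id hz
    exact contDiff_Th.contDiffAt.comp z h1

theorem fderiv_P (z v : ℂ) : fderiv ℝ P z v = Real.smoothTransition (Real.log ‖z‖) * (v / z).re := by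
  rcases eq_or_ne z 0 with rfl | hz
  · rw [(P_ev_zero (by simp)).fderiv_eq]
    simp
  · have h1 : ContDiffAt ℝ 2 (fun w : ℂ => Real.log ‖w‖) z := contDiffAt_log_norm (h := id) analyticAt_id hz
    have h2 := fderiv_comp_real (φ := Th) (hasDerivAt_Th _).differentiableAt (h1.differentiableAt (by norm_num)) v
    have h3 := fderiv_log_norm (g := id) differentiableAt_id hz v
    have h4 : fderiv ℝ P z v = _ := h2
    rw [h4, deriv_Th]
    simp only [id_eq] at h3
    rw [h3]
    simp [div_eq_inv_mul]

theorem abs_fderiv_P_le (z v : ℂ) : |fderiv ℝ P z v| ≤ ‖v‖ / ‖z‖ := by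
  rw [fderiv_P, abs_mul]
  have h1 : |Real.smoothTransition (Real.log ‖z‖)| ≤ 1 := by
    rw [abs_of_nonneg (Real.smoothTransition.nonneg _)]
    exact Real.smoothTransition.le_one _
  have h2 : |(v / z).re| ≤ ‖v‖ / ‖z‖ := by
    rw [← norm_div]
    exact Complex.abs_re_le_norm _
  calc _ ≤ 1 * (‖v‖ / ‖z‖) := mul_le_mul h1 h2 (abs_nonneg _) zero_le_one
    _ = _ := one_mul _

/-- the density `Δ P` -/
noncomputable def rho (z : ℂ) : ℝ := deriv Real.smoothTransition (Real.log ‖z‖) / ‖z‖ ^ 2

theorem deriv_st_nonneg (s : ℝ) : 0 ≤ deriv Real.smoothTransition s := Real.smoothTransition.monotone.deriv_nonneg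

theorem deriv_st_eq_zero {s : ℝ} (hs : s ≤ 0 ∨ 1 ≤ s) : deriv Real.smoothTransition s = 0 := by
  rcases hs with hs | hs
  · have hd : DifferentiableAt ℝ Real.smoothTransition s :=
      (Real.smoothTransition.contDiff (n := 1)).differentiable (by norm_num) s
    have h1 := hd.hasDerivAt.hasDerivWithinAt (s := Iic s)
    have h2 : HasDerivWithinAt Real.smoothTransition 0 (Iic s) s :=
      (hasDerivWithinAt_const s (Iic s) (0 : ℝ)).congr
        (fun x hx => Real.smoothTransition.zero_of_nonpos (le_trans hx hs)) (Real.smoothTransition.zero_of_nonpos hs)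
    exact (uniqueDiffWithinAt_Iic s).eq_deriv _ h1 h2
  · have hd : DifferentiableAt ℝ Real.smoothTransition s :=
      (Real.smoothTransition.contDiff (n := 1)).differentiable (by norm_num) s
    have h1 := hd.hasDerivAt.hasDerivWithinAt (s := Ici s)
    have h2 : HasDerivWithinAt Real.smoothTransition 0 (Ici s) s :=
      (hasDerivWithinAt_const s (Ici s) (1 : ℝ)).congr
        (fun x hx => Real.smoothTransition.one_of_one_le (le_trans hs hx)) (Real.smoothTransition.one_of_one_le hs)
    exact (uniqueDiffWithinAt_Ici s).eq_deriv _ h1 h2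

theorem rho_nonneg (z : ℂ) : 0 ≤ rho z := div_nonneg (deriv_st_nonneg _) (by positivity)

theorem rho_eq_zero {z : ℂ} (h : ‖z‖ ≤ 1 ∨ Real.exp 1 ≤ ‖z‖) : rho z = 0 := by
  unfold rho
  rw [deriv_st_eq_zero, zero_div]
  rcases h with h | h
  · exact Or.inl (Real.log_nonpos (norm_nonneg z) h)
  · right
    rw [Real.le_log_iff_exp_le (lt_of_lt_of_le (Real.exp_pos 1) h)]
    exact h

theorem lap_P (z : ℂ) : Δ P z = rho z := by
  rcases eq_or_ne z 0 with rfl | hz
  · rw [lap_congr (P_ev_zero (by simp)), rho_eq_zero (Or.inl (by simp))]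
    simp [laplacian_const]
  · have h1 : ContDiffAt ℝ 2 (fun w : ℂ => Real.log ‖w‖) z := contDiffAt_log_norm (h := id) analyticAt_id hz
    have h2 := lap_comp (φ := Th) contDiff_Th.contDiffAt h1
    have h3 : Δ (fun w : ℂ => Real.log ‖w‖) z = 0 := lap_log_norm (h := id) analyticAt_id hz
    have h4 : Δ P z = _ := h2
    rw [h4, h3, mul_zero, zero_add, deriv_Th]
    have h5 : gg (fun w : ℂ => Real.log ‖w‖) (fun w : ℂ => Real.log ‖w‖) z = 1 / ‖z‖ ^ 2 := by
      unfold gg
      have e : ∀ v : ℂ, fderiv ℝ (fun w : ℂ => Real.log ‖w‖) z v = (1 / z * v).re := by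
        intro v
        have := fderiv_log_norm (g := id) differentiableAt_id hz v
        simp only [id_eq, deriv_id''] at this
        rw [this]
        simp
      rw [e, e, ← Complex.normSq_eq_norm_sq]
      have : Complex.normSq z ≠ 0 := by simpa using hz
      simp only [one_div, mul_one, Complex.inv_re, mul_re, I_re, I_im, Complex.inv_im]
      field_simp
      rw [Complex.normSq_apply]
      ring
    rw [h5]
    unfold rho
    ring

theorem continuous_rho : Continuous rho := by
  have := continuous_lap contDiff_P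
  rwa [funext lap_P] at this

end Pool.Agent.H30M
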