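import Pool.Agent.H30M.Tau

/-!
# The test functions `tau R z = log R - P z + P (z / R)`: properties
-/

set_option autoImplicit false

open MeasureTheory Complex Set Filter Topology Laplacian InnerProductSpace Metric

namespace Pool.Agent.H30M

/-- the test function -/
noncomputable def tau (R : ℝ) (z : ℂ) : ℝ := Real.log R - P z + P (z / R)

private theorem t2_norm {R : ℝ} (hR : 1 ≤ R) (z : ℂ) : ‖z / (R : ℂ)‖ = ‖z‖ / R := by
  rw [norm_div, Complex.norm_real, Real.norm_of_nonneg (by linarith)]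

/-- `tau` through `Th` -/
theorem tau_eq {R : ℝ} (hR : 1 ≤ R) {z : ℂ} (hz : z ≠ 0) :
    tau R z = Real.log R - (Th (Real.log ‖z‖) - Th (Real.log ‖z‖ - Real.log R)) := by
  unfold tau P
  rw [t2_norm hR, Real.log_div (norm_ne_zero_iff.2 hz) (by linarith)]
  ring

theorem tau_of_le_one {R : ℝ} (hR : 1 ≤ R) {z : ℂ} (hz : ‖z‖ ≤ 1) : tau R z = Real.log R := by
  unfold tau
  rw [P_eq_zero hz, P_eq_zero (by rw [t2_norm hR, div_le_one (by linarith)]; linarith)]
  ring

theorem tau_zero {R : ℝ} (hR : 1 ≤ R) : tau R 0 = Real.log R := tau_of_le_one hR (by simp)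

theorem tau_nonneg {R : ℝ} (hR : 1 ≤ R) (z : ℂ) : 0 ≤ tau R z := by
  rcases eq_or_ne z 0 with rfl | hz
  · rw [tau_zero hR]; exact Real.log_nonneg hR
  · rw [tau_eq hR hz]
    have h1 := Real.log_nonneg hR
    have h2 := Th_sub_le (s := Real.log ‖z‖) (t := Real.log ‖z‖ - Real.log R) (by linarith)
    linarith

theorem tau_le {R : ℝ} (hR : 1 ≤ R) (z : ℂ) : tau R z ≤ Real.log R := by
  rcases eq_or_ne z 0 with rfl | hz
  · rw [tau_zero hR]
  · rw [tau_eq hR hz]
    have h1 := Real.log_nonneg hR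
    have h2 := Th_mono (show Real.log ‖z‖ - Real.log R ≤ Real.log ‖z‖ by linarith)
    linarith

theorem tau_eq_zero {R : ℝ} (hR : 1 ≤ R) {z : ℂ} (hz : Real.exp 1 * R ≤ ‖z‖) : tau R z = 0 := by
  have hR0 : 0 < R := by linarith
  have hz0 : 0 < ‖z‖ := lt_of_lt_of_le (mul_pos (Real.exp_pos 1) hR0) hz
  rw [tau_eq hR (norm_pos_iff.1 hz0)]
  have h1 : 1 + Real.log R ≤ Real.log ‖z‖ := by
    have := Real.log_le_log (mul_pos (Real.exp_pos 1) hR0) hz
    rwa [Real.log_mul (Real.exp_pos 1).ne' hR0.ne', Real.log_exp] at this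
  have h2 := Real.log_nonneg hR
  have h3 := Th_sub_eq (s := Real.log ‖z‖) (t := Real.log ‖z‖ - Real.log R) (by linarith) (by linarith)
  linarith

theorem tau_mono {R R' : ℝ} (hR : 1 ≤ R) (hRR : R ≤ R') (z : ℂ) : tau R z ≤ tau R' z := by
  have hR' : 1 ≤ R' := hR.trans hRR
  rcases eq_or_ne z 0 with rfl | hz
  · rw [tau_zero hR, tau_zero hR']; exact Real.log_le_log (by linarith) hRR
  · rw [tau_eq hR hz, tau_eq hR' hz]
    have h1 := Real.log_le_log (by linarith) hRR
    have h2 := Th_sub_le (s := Real.log ‖z‖ - Real.log R) (t := Real.log ‖z‖ - Real.log R') (by linarith)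
    linarith

theorem le_tau {R r : ℝ} (_hR : 1 ≤ R) (hr : 1 ≤ r) {z : ℂ} (hz : ‖z‖ ≤ r) : Real.log R - Real.log r ≤ tau R z := by
  unfold tau
  have h1 : P z ≤ Real.log r := by
    unfold P
    rcases le_total (Real.log ‖z‖) 0 with h | h
    · rw [Th_nonpos h]; exact Real.log_nonneg hr
    · refine (Th_le h).trans ?_
      rcases eq_or_ne z 0 with rfl | hz0
      · simp; exact Real.log_nonneg hr
      · exact Real.log_le_log (norm_pos_iff.2 hz0) hz
  have h2 := P_nonneg (z / R)
  linarith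

theorem one_le_tau {R : ℝ} (hR : 1 ≤ R) {z : ℂ} (hz : ‖z‖ ≤ Real.exp 1 * R) : 1 ≤ tau (Real.exp 2 * R) z := by
  have e1 : 1 ≤ Real.exp 1 * R := by
    have := Real.one_le_exp (zero_le_one (α := ℝ))
    nlinarith
  have e2 : 1 ≤ Real.exp 2 * R := by
    have := Real.one_le_exp (zero_le_two (α := ℝ))
    nlinarith
  have h := le_tau e2 e1 hz
  rw [Real.log_mul (Real.exp_pos _).ne' (by linarith), Real.log_mul (Real.exp_pos _).ne' (by linarith),
    Real.log_exp, Real.log_exp] at h
  linarith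

theorem tsupport_tau {R : ℝ} (hR : 1 ≤ R) : tsupport (tau R) ⊆ closedBall 0 (Real.exp 1 * R) := by
  refine closure_minimal (fun z hz => ?_) isClosed_closedBall
  rw [mem_closedBall_zero_iff]
  by_contra h
  exact hz (tau_eq_zero hR (not_le.1 h).le)

theorem hcs_tau {R : ℝ} (hR : 1 ≤ R) : HasCompactSupport (tau R) :=
  IsCompact.of_isClosed_subset (isCompact_closedBall _ _) (isClosed_tsupport _) (tsupport_tau hR)

theorem contDiff_PR (R : ℝ) : ContDiff ℝ 2 fun z : ℂ => P (z / R) :=
  contDiff_P.comp (contDiff_id.div_const _)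

theorem contDiff_tau (R : ℝ) : ContDiff ℝ 2 (tau R) := (contDiff_const.sub contDiff_P).add (contDiff_PR R)

private theorem t2_fd (R : ℝ) (f : ℂ → ℝ) (hf : Differentiable ℝ f) (z v : ℂ) :
    fderiv ℝ (fun z : ℂ => f (z / R)) z v = fderiv ℝ f (z / R) (v / R) := by
  have h1 : HasFDerivAt (fun z : ℂ => z / (R : ℂ)) (((R : ℂ)⁻¹ • ContinuousLinearMap.id ℂ ℂ).restrictScalars ℝ) z := by
    have := ((hasFDerivAt_id (𝕜 := ℂ) z).const_smul ((R : ℂ)⁻¹)).restrictScalars ℝ
    refine this.congr_of_eventuallyEq (Eventually.of_forall fun w => ?_)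
    simp [div_eq_inv_mul]
  have h2 := (hf (z / R)).hasFDerivAt.comp z h1
  have h3 : HasFDerivAt (fun z : ℂ => f (z / R)) _ z := h2
  rw [h3.fderiv]
  simp [div_eq_inv_mul]

theorem fderiv_PR {R : ℝ} (hR : 1 ≤ R) (z v : ℂ) : fderiv ℝ (fun z : ℂ => P (z / R)) z v =
    Real.smoothTransition (Real.log ‖z / R‖) * (v / z).re := by
  rw [t2_fd R P (contDiff_P.differentiable (by norm_num)), fderiv_P]
  congr 2
  have : (R : ℂ) ≠ 0 := by
    rw [Ne, Complex.ofReal_eq_zero]; linarith
  rw [div_div_div_cancel_right₀ this]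

theorem fderiv_tau {R : ℝ} (hR : 1 ≤ R) (z v : ℂ) : fderiv ℝ (tau R) z v =
    (Real.smoothTransition (Real.log ‖z / R‖) - Real.smoothTransition (Real.log ‖z‖)) * (v / z).re := by
  have h1 : DifferentiableAt ℝ P z := contDiff_P.differentiable (by norm_num) z
  have h2 : DifferentiableAt ℝ (fun z : ℂ => P (z / R)) z := (contDiff_PR R).differentiable (by norm_num) z
  have h3 : HasFDerivAt (tau R) (- fderiv ℝ P z + fderiv ℝ (fun z : ℂ => P (z / R)) z) z :=
    (h1.hasFDerivAt.const_sub _).add h2.hasFDerivAt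
  rw [h3.fderiv]
  simp only [add_apply, neg_apply]
  rw [fderiv_P, fderiv_PR hR]
  ring

theorem abs_coef_le {R : ℝ} (hR : 1 ≤ R) (z : ℂ) :
    |Real.smoothTransition (Real.log ‖z / R‖) - Real.smoothTransition (Real.log ‖z‖)| ≤ 1 := by
  have h1 := Real.smoothTransition.nonneg (Real.log ‖z / R‖)
  have h2 := Real.smoothTransition.le_one (Real.log ‖z / R‖)
  have h3 := Real.smoothTransition.nonneg (Real.log ‖z‖)
  have h4 := Real.smoothTransition.le_one (Real.log ‖z‖)
  rw [abs_le]; constructor <;> linarith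

theorem abs_fderiv_tau_le {R : ℝ} (hR : 1 ≤ R) (z v : ℂ) : |fderiv ℝ (tau R) z v| ≤ ‖v‖ / ‖z‖ := by
  rw [fderiv_tau hR, abs_mul]
  have h2 : |(v / z).re| ≤ ‖v‖ / ‖z‖ := by
    rw [← norm_div]
    exact Complex.abs_re_le_norm _
  calc _ ≤ 1 * (‖v‖ / ‖z‖) := mul_le_mul (abs_coef_le hR z) h2 (abs_nonneg _) zero_le_one
    _ = _ := one_mul _

/-- `|∇ tau| ≤ 1/|z|` -/
theorem gg_tau_le {R : ℝ} (hR : 1 ≤ R) (z : ℂ) : gg (tau R) (tau R) z ≤ 1 / ‖z‖ ^ 2 := by
  unfold gg
  rw [fderiv_tau hR, fderiv_tau hR]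
  have h1 := abs_coef_le hR z
  set c := Real.smoothTransition (Real.log ‖z / R‖) - Real.smoothTransition (Real.log ‖z‖) with hc
  have h2 : c ^ 2 ≤ 1 := by
    rw [← sq_abs]; nlinarith [abs_nonneg c]
  rcases eq_or_ne z 0 with rfl | hz
  · simp
  · have h3 : (1 / z).re * (1 / z).re + (I / z).re * (I / z).re = 1 / ‖z‖ ^ 2 := by
      rw [← Complex.normSq_eq_norm_sq]
      have hn : Complex.normSq z ≠ 0 := by simpa using hz
      rw [Complex.div_re, Complex.div_re]
      simp only [one_re, one_im, I_re, I_im]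
      field_simp
      rw [Complex.normSq_apply]
      ring
    have h4 : c * (1 / z).re * (c * (1 / z).re) + c * (I / z).re * (c * (I / z).re) = c ^ 2 * (1 / ‖z‖ ^ 2) := by
      rw [← h3]; ring
    rw [h4]
    have : 0 ≤ 1 / ‖z‖ ^ 2 := by positivity
    nlinarith

/-- the gradient vanishes outside the annulus `1 < |z| < e R` -/
theorem fderiv_tau_eq_zero {R : ℝ} (hR : 1 ≤ R) {z : ℂ} (hz : ‖z‖ ≤ 1 ∨ Real.exp 1 * R ≤ ‖z‖) (v : ℂ) :
    fderiv ℝ (tau R) z v = 0 := by
  rw [fderiv_tau hR]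
  have hR0 : 0 < R := by linarith
  rcases hz with hz | hz
  · rw [Real.smoothTransition.zero_of_nonpos, Real.smoothTransition.zero_of_nonpos]
    · simp
    · exact Real.log_nonpos (norm_nonneg _) hz
    · exact Real.log_nonpos (norm_nonneg _) (by rw [t2_norm hR, div_le_one hR0]; linarith)
  · have hz0 : 0 < ‖z‖ := lt_of_lt_of_le (mul_pos (Real.exp_pos 1) hR0) hz
    have h1 : 1 + Real.log R ≤ Real.log ‖z‖ := by
      have := Real.log_le_log (mul_pos (Real.exp_pos 1) hR0) hz
      rwa [Real.log_mul (Real.exp_pos 1).ne' hR0.ne', Real.log_exp] at this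
    have h2 := Real.log_nonneg hR
    rw [Real.smoothTransition.one_of_one_le, Real.smoothTransition.one_of_one_le]
    · simp
    · linarith
    · rw [t2_norm hR, Real.log_div hz0.ne' hR0.ne']; linarith

/-- the outer density -/
noncomputable def rhoR (R : ℝ) (z : ℂ) : ℝ := rho (z / R) / R ^ 2

theorem rhoR_nonneg (R : ℝ) (z : ℂ) : 0 ≤ rhoR R z := div_nonneg (rho_nonneg _) (by positivity)

theorem rhoR_one : rhoR 1 = rho := by
  funext z; simp [rhoR]

theorem continuous_rhoR (R : ℝ) : Continuous (rhoR R) := (continuous_rho.comp (by fun_prop)).div_const _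

theorem rhoR_eq_zero {R : ℝ} (hR : 1 ≤ R) {z : ℂ} (hz : ‖z‖ ≤ R ∨ Real.exp 1 * R ≤ ‖z‖) : rhoR R z = 0 := by
  unfold rhoR
  have hR0 : 0 < R := by linarith
  rw [rho_eq_zero, zero_div]
  rw [t2_norm hR]
  rcases hz with hz | hz
  · left; rwa [div_le_one hR0]
  · right; rwa [le_div_iff₀ hR0]

theorem hcs_rhoR {R : ℝ} (hR : 1 ≤ R) : HasCompactSupport (rhoR R) := by
  refine HasCompactSupport.intro (isCompact_closedBall 0 (Real.exp 1 * R)) fun z hz => ?_
  rw [mem_closedBall_zero_iff, not_le] at hz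
  exact rhoR_eq_zero hR (Or.inr hz.le)

theorem lap_PR {R : ℝ} (hR : 1 ≤ R) (z : ℂ) : Δ (fun z : ℂ => P (z / R)) z = rhoR R z := by
  rw [lap_eq (contDiff_PR R).contDiffAt]
  have hd : ∀ v : ℂ, Differentiable ℝ fun w => fderiv ℝ P w v := fun v w =>
    (contDiffAt_d contDiff_P.contDiffAt v).differentiableAt (by norm_num)
  have key : ∀ v : ℂ, fderiv ℝ (fun w => fderiv ℝ (fun z : ℂ => P (z / R)) w v) z v =
      (1 / R ^ 2) * fderiv ℝ (fun w => fderiv ℝ P w v) (z / R) v := by
    intro v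
    have e1 : (fun w => fderiv ℝ (fun z : ℂ => P (z / R)) w v) = fun w : ℂ => (fun u => (1 / R) * fderiv ℝ P u v) (w / R) := by
      funext w
      rw [t2_fd R P (contDiff_P.differentiable (by norm_num))]
      have : v / (R : ℂ) = (1 / R : ℝ) • v := by
        rw [Complex.real_smul]; push_cast; ring
      rw [this, map_smul, smul_eq_mul]
    rw [e1, t2_fd R _ ((hd v).const_mul (1 / R))]
    have e2 : v / (R : ℂ) = (1 / R : ℝ) • v := by
      rw [Complex.real_smul]; push_cast; ring
    rw [e2, map_smul, smul_eq_mul, fderiv_const_mul ((hd v) _)]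
    simp only [smul_apply, smul_eq_mul]
    ring
  rw [key, key, ← mul_add, ← lap_eq contDiff_P.contDiffAt, lap_P]
  unfold rhoR
  ring

theorem lap_tau {R : ℝ} (hR : 1 ≤ R) (z : ℂ) : Δ (tau R) z = rhoR R z - rho z := by
  have h1 : ContDiffAt ℝ 2 (fun z : ℂ => Real.log R - P z) z := contDiffAt_const.sub contDiff_P.contDiffAt
  have h2 : ContDiffAt ℝ 2 (fun z : ℂ => P (z / R)) z := (contDiff_PR R).contDiffAt
  have h3 := lap_add h1 h2
  have h4 : Δ (tau R) z = _ := h3
  rw [h4, lap_PR hR, lap_sub contDiffAt_const contDiff_P.contDiffAt, lap_P]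
  simp [laplacian_const]
  ring

/-- `∫ rho = 2 π` -/
theorem int_rho : ∫ z, rho z = 2 * Real.pi := by
  have e : rho = fun z : ℂ => (fun y : ℝ => deriv Real.smoothTransition (Real.log y) / y ^ 2) ‖z‖ := rfl
  rw [e, integral_fun_norm_addHaar, Complex.finrank_real_complex]
  have h1 : ∫ y in Ioi (0 : ℝ), y ^ (2 - 1) • (deriv Real.smoothTransition (Real.log y) / y ^ 2) = 1 := by
    have hst : Differentiable ℝ Real.smoothTransition :=
      (Real.smoothTransition.contDiff (n := 1)).differentiable (by norm_num)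
    have hd : ∀ y ∈ Ici (0 : ℝ), HasDerivAt (fun y : ℝ => Real.smoothTransition (Real.log y))
        (y ^ (2 - 1) • (deriv Real.smoothTransition (Real.log y) / y ^ 2)) y := by
      intro y hy
      rcases eq_or_lt_of_le (show (0 : ℝ) ≤ y from hy) with h0 | h0
      · subst h0
        have h2 : (fun y : ℝ => Real.smoothTransition (Real.log y)) =ᶠ[𝓝 0] fun _ => 0 := by
          have : ∀ᶠ y : ℝ in 𝓝 0, |y| < 1 := by
            have h9 : Continuous fun y : ℝ => |y| := continuous_abs
            have h8 := h9.tendsto 0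
            simp only [abs_zero] at h8
            exact h8.eventually (gt_mem_nhds zero_lt_one)
          filter_upwards [this] with y hy
          refine Real.smoothTransition.zero_of_nonpos ?_
          rw [← Real.log_abs]
          exact Real.log_nonpos (abs_nonneg y) hy.le
        refine ((hasDerivAt_const (0 : ℝ) (0 : ℝ)).congr_of_eventuallyEq h2).congr_deriv ?_
        simp
      · refine ((hst (Real.log y)).hasDerivAt.comp y (Real.hasDerivAt_log h0.ne')).congr_deriv ?_
        simp only [smul_eq_mul]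
        have hy0 : y ≠ 0 := h0.ne'
        field_simp
        norm_num
    have hl : Tendsto (fun y : ℝ => Real.smoothTransition (Real.log y)) atTop (𝓝 1) := by
      refine tendsto_const_nhds.congr' ?_
      filter_upwards [eventually_ge_atTop (Real.exp 1)] with y hy
      rw [Real.smoothTransition.one_of_one_le]
      rwa [Real.le_log_iff_exp_le (lt_of_lt_of_le (Real.exp_pos 1) hy)]
    have := integral_Ioi_of_hasDerivAt_of_nonneg' hd (fun y hy => by
      have : (0 : ℝ) < y := hy
      rw [smul_eq_mul]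
      exact mul_nonneg (by positivity) (div_nonneg (deriv_st_nonneg _) (by positivity))) hl
    rw [this]
    simp
  rw [h1]
  have hv : volume.real (ball (0 : ℂ) 1) = Real.pi := by
    rw [Measure.real, Complex.volume_ball]
    simp
  rw [hv]
  simp

theorem int_rhoR {R : ℝ} (hR : 1 ≤ R) : ∫ z, rhoR R z = 2 * Real.pi := by
  have hR0 : 0 < R := by linarith
  have h2 := Measure.integral_comp_smul_of_nonneg (volume : Measure ℂ) (fun z : ℂ => rho z) (R⁻¹) (hR := by positivity)
  rw [Complex.finrank_real_complex, int_rho] at h2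
  have e : rhoR R = fun z : ℂ => (1 / R ^ 2) * rho (R⁻¹ • z) := by
    funext z
    unfold rhoR
    have : z / (R : ℂ) = R⁻¹ • z := by
      rw [Complex.real_smul]; push_cast; ring
    rw [this]
    ring
  rw [e, integral_const_mul, h2, smul_eq_mul]
  field_simp

/-- the average over the annulus `R < |z| < e R` (total mass `2 π`) -/
noncomputable def avg (R : ℝ) (u : ℂ → ℝ) : ℝ := ∫ z, rhoR R z * u z

/-- **Green for tau** -/
theorem green_tau {R : ℝ} (hR : 1 ≤ R) {u : ℂ → ℝ} (hu : ContDiff ℝ 2 u) :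
    ∫ z, tau R z * Δ u z = avg R u - avg 1 u := by
  rw [green2 (contDiff_tau R) (hcs_tau hR) fun z _ => hu.contDiffAt]
  unfold avg
  rw [← integral_sub]
  · refine integral_congr_ae (Eventually.of_forall fun z => ?_)
    simp only [lap_tau hR, rhoR_one]
    ring
  · exact ((continuous_rhoR R).mul hu.continuous).integrable_of_hasCompactSupport ((hcs_rhoR hR).mul_right)
  · exact ((continuous_rhoR 1).mul hu.continuous).integrable_of_hasCompactSupport ((hcs_rhoR le_rfl).mul_right)

/-- **Jensen's formula** -/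
theorem pl_tau {R : ℝ} (hR : 1 ≤ R) {g : ℂ → ℂ} (hg : Differentiable ℂ g) (h0 : ∃ z, g z ≠ 0) :
    avg R (fun z => Real.log ‖g z‖) - avg 1 (fun z => Real.log ‖g z‖)
      = 2 * Real.pi * ∑ᶠ z, (analyticOrderNatAt g z : ℝ) * tau R z := by
  have hA : AnalyticOnNhd ℂ g univ := fun z _ => hg.analyticAt z
  have ho : ∀ z, analyticOrderAt g z ≠ ⊤ := by
    obtain ⟨w, hw⟩ := h0
    have hw' : analyticOrderAt g w ≠ ⊤ := by
      rw [(hg.analyticAt w).analyticOrderAt_eq_zero.2 hw]
      simp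
    intro z
    exact hA.analyticOrderAt_ne_top_of_isPreconnected isPreconnected_univ (mem_univ w) (mem_univ z) hw'
  rw [← pl (contDiff_tau R) (hcs_tau hR) (fun z _ => hg.analyticAt z) fun z _ => ho z]
  unfold avg
  rw [← integral_sub]
  · refine integral_congr_ae (Eventually.of_forall fun z => ?_)
    simp only [lap_tau hR, rhoR_one]
    ring
  · exact integrable_mul_log (continuous_rhoR R) (hcs_rhoR hR) (fun z _ => hg.analyticAt z) fun z _ => ho z
  · exact integrable_mul_log (continuous_rhoR 1) (hcs_rhoR le_rfl) (fun z _ => hg.analyticAt z) fun z _ => ho z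

end Pool.Agent.H30M
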